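import Pool.Agent.H63.WT.TB

/-!
# From a hyperbolic to an anisotropic member of a pencil
-/

set_option autoImplicit false

open Polynomial Matrix Pool.Agent.H63.WT

namespace Pool.Agent.H81.WT

theorem isCoprime_X_sub {F : Type} [Field F] {M0 : F[X]} {t : F} (h : eval t M0 ≠ 0) :
    IsCoprime M0 (X - C t) := by
  rw [isCoprime_comm]
  refine (Polynomial.irreducible_X_sub_C t).coprime_iff_not_dvd.2 ?_
  rwa [dvd_iff_isRoot]

theorem isCoprime_const {F : Type} [Field F] (M0 : F[X]) {c : F} (h : c ≠ 0) :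
    IsCoprime M0 (C c) :=
  ⟨0, C c⁻¹, by rw [zero_mul, zero_add, ← C_mul, inv_mul_cancel₀ h, C_1]⟩

theorem met_smul {F ι : Type} [Field F] [Fintype ι] {A : Matrix ι ι F} (h : Met A) (c : F) :
    Met (c • A) := by
  obtain ⟨r, hr, b, hb, hb0⟩ := h
  refine ⟨r, hr, b, hb, fun i j => ?_⟩
  rw [Matrix.smul_mulVec, dotProduct_smul, hb0, smul_zero]

theorem lam_congr {F : Type} [Field F] {M g g' : F[X]} (hM : M.Monic) (h : M ∣ g - g') :
    Pool.Agent.H34.N6.lam M g = Pool.Agent.H34.N6.lam M g' := by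
  unfold Pool.Agent.H34.N6.lam
  have : g %ₘ M = g' %ₘ M := by
    have h1 : (g - g') %ₘ M = 0 := (modByMonic_eq_zero_iff_dvd hM).2 h
    rw [sub_modByMonic] at h1
    exact sub_eq_zero.1 h1
  rw [this]

theorem lam_small {F : Type} [Field F] {M g : F[X]} (hM : M.Monic)
    (h : g.natDegree < M.natDegree - 1) : Pool.Agent.H34.N6.lam M g = 0 := by
  unfold Pool.Agent.H34.N6.lam
  rw [(modByMonic_eq_self_iff hM).2 (degree_lt_degree (by omega))]
  exact coeff_eq_zero_of_natDegree_lt h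

theorem pf_REV (hFWD : T_FWD) (hDUA : T_DUA) (hSUB : T_SUB) (hLOC : T_LOC) (hSSQ : T_SSQ)
    (hSCR : T_SCR) (hSEU : T_SEU) (hSYB : T_SYB) (hEU9 : T_EU9) (hLAL : T_LAL) (hGDT : T_GDT)
    (hCLS : T_CLS) (hNNR : T_NNR) (hONE : T_ONE) (hPTB : T_PTB) : T_REV := by
  intro F _ _ _ _ M0 h t0 hM hsep hd hcop ht0 hsq hN Z
  by_contra hcon
  push Not at hcon
  have hLA : LA F := hLAL F
  have h2 : (2 : F) ≠ 0 := hLA.1
  obtain ⟨-, gsym, gdet, gmul, -, -, -⟩ := hGDT F M0 hM
  obtain ⟨ssq1, ssq2, ssq3⟩ := hSSQ F h2 M0 hM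
  obtain ⟨cls1, -, -, -, -⟩ := hCLS F h2
  obtain ⟨one1, one2, -, -⟩ := hONE F h2
  have cX : ∀ {t : F}, eval t M0 ≠ 0 → IsCoprime M0 (X - C t) := fun ht => isCoprime_X_sub ht
  have nnX : ∀ t : F, nn M0 (X - C t) = eval t M0 := by
    intro t
    rw [(hNNR F M0 (X - C t) hM (monic_X_sub_C t)).2, hd, natDegree_X_sub_C]
    obtain ⟨-, -, -, -, -, -, g7⟩ := hGDT F (X - C t) (monic_X_sub_C t)
    rw [g7 t rfl M0]
    norm_num
  -- quaternary forms
  have L1 : ∀ g : F[X], IsCoprime M0 g → IsSquare (nn M0 g) →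
      (S M0 g = 0 ↔ ¬ Anis (gm M0 g)) ∧ (S M0 g = 0 ↔ Met (gm M0 g)) := by
    intro g hg hs
    have := ((hEU9 F h2).1 1 M0 g one_ne_zero hM hd hg).2 hs
    unfold G at this
    rwa [C_1, one_mul] at this
  have S0 : ∀ g : F[X], IsCoprime M0 g → Met (gm M0 g) → S M0 g = 0 := by
    intro g hg hm
    exact cls1 _ (gm M0 g) ⟨gsym g, (gdet g).2 hg⟩ hm
  have cop0 : IsCoprime M0 (X - C t0) := cX ht0
  have hsq' : ∀ t : F, IsSquare (eval t M0 * eval t0 M0) →
      IsSquare (nn M0 (h * (X - C t))) := by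
    intro t hs
    rw [gmul, nnX] at hsq ⊢
    obtain ⟨r, hr⟩ := hsq
    obtain ⟨s, hs⟩ := hs
    refine ⟨r * s / eval t0 M0, ?_⟩
    field_simp
    linear_combination (eval t M0 * eval t0 M0) * hr + r ^ 2 * hs
  -- (1)
  have H1 : ∀ t : F, eval t M0 ≠ 0 → IsSquare (eval t M0 * eval t0 M0) →
      S M0 (h * (X - C t)) = 0 := by
    have H1' : ∀ t : F, t ∉ Z → eval t M0 ≠ 0 → IsSquare (eval t M0 * eval t0 M0) →
        S M0 (h * (X - C t)) = 0 := by
      intro t htZ ht hs
      refine (L1 _ (hcop.mul_right (cX ht)) (hsq' t hs)).1.2 ?_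
      intro hA
      exact hcon t htZ ht hA hs
    intro t ht hs
    obtain ⟨ε, hε, hloc⟩ := hLOC F M0 (h * (X - C t)) (h.natDegree + 1) hM
      (hcop.mul_right (cX ht))
    set K : ℝ := ∑ i ∈ Finset.range (h.natDegree + 1), ‖h.coeff i‖ + 1 with hK
    have hK0 : 0 < K := by
      have : 0 ≤ ∑ i ∈ Finset.range (h.natDegree + 1), ‖h.coeff i‖ :=
        Finset.sum_nonneg fun i _ => norm_nonneg _
      linarith
    have hKc : ∀ i, ‖h.coeff i‖ ≤ K := by
      intro i
      by_cases hi : i ∈ Finset.range (h.natDegree + 1)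
      · have := Finset.single_le_sum (f := fun i => ‖h.coeff i‖)
          (fun i _ => norm_nonneg _) hi
        linarith
      · rw [Finset.mem_range] at hi
        rw [coeff_eq_zero_of_natDegree_lt (by omega), norm_zero]
        exact hK0.le
    obtain ⟨t', ht'Z, ht't, ht'0, ht's⟩ := (hPTB F (eval t0 M0) M0 ht0 hM hsep hd).1 t (ε / K)
      (by positivity) (by rwa [mul_comm]) Z
    have ht'1 : eval t' M0 ≠ 0 := right_ne_zero_of_mul ht'0
    have hS := (hloc (h * (X - C t')) (by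
      refine natDegree_mul_le.trans ?_
      rw [natDegree_X_sub_C]) (by
      intro i
      have e : h * (X - C t') - h * (X - C t) = h * C (t - t') := by
        rw [C_sub]; ring
      rw [e, coeff_mul_C, norm_mul]
      have e2 : ‖t - t'‖ < ε / K := by rwa [norm_sub_rev]
      calc ‖h.coeff i‖ * ‖t - t'‖ ≤ K * ‖t - t'‖ :=
            mul_le_mul_of_nonneg_right (hKc i) (norm_nonneg _)
        _ < K * (ε / K) := by gcongr
        _ = ε := by field_simp)).2.1
    rw [← hS]
    exact H1' t' ht'Z ht'1 (by rwa [mul_comm])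
  have htt0 : IsSquare (eval t0 M0 * eval t0 M0) := ⟨_, rfl⟩
  set k : F[X] := h * (X - C t0) with hk
  have kcop : IsCoprime M0 k := hcop.mul_right cop0
  have Sk : S M0 k = 0 := H1 t0 ht0 htt0
  -- (2)
  have H2 : ∀ b ∈ PB M0 t0, S M0 (k * b) = 0 := by
    rintro b ⟨hb, c, t, z, hc, -, ht, hs, hdiv⟩
    have hcop' : IsCoprime M0 (h * (X - C t)) := hcop.mul_right (cX ht)
    have hcc : IsCoprime M0 (C c * (h * (X - C t))) :=
      (isCoprime_const M0 hc).mul_right hcop'
    have e1 : S M0 (k * b) = S M0 (C c * (h * (X - C t))) := by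
      refine ssq1 (k * b) (C c * (h * (X - C t))) ((X - C t0) * z) (kcop.mul_right hb) hcc ?_
      have : k * b - C c * (h * (X - C t)) * ((X - C t0) * z) ^ 2 =
          k * (b - C c * ((X - C t) * (X - C t0)) * z ^ 2) := by
        rw [hk]; ring
      rw [this]
      exact Dvd.dvd.mul_left hdiv k
    rw [e1]
    refine S0 _ hcc ?_
    rw [ssq3]
    exact met_smul ((L1 _ hcop' (hsq' t hs)).2.1 (H1 t ht hs)) c
  -- (3)
  have H3 : k ∉ PB M0 t0 := by
    rintro ⟨-, c, t, z, hc, -, ht, hs, hdiv⟩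
    have hd1 : M0 ∣ h - C c * (X - C t) * z ^ 2 := by
      refine cop0.dvd_of_dvd_mul_left ?_
      have : (X - C t0) * (h - C c * (X - C t) * z ^ 2) =
          k - C c * ((X - C t) * (X - C t0)) * z ^ 2 := by
        rw [hk]; ring
      rw [this]
      exact hdiv
    have hz : IsCoprime M0 z := by
      obtain ⟨q, hq⟩ := hd1
      obtain ⟨u, v, huv⟩ := hcop
      refine ⟨u + v * q, v * (C c * (X - C t) * z), ?_⟩
      have : h = M0 * q + C c * (X - C t) * z ^ 2 := by rw [← hq]; ring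
      rw [this] at huv
      rw [← huv]
      ring
    obtain ⟨u, w, huw⟩ := hz
    set w' := w %ₘ M0 with hw'
    have hww : M0 ∣ w - w' := by
      have := modByMonic_add_div w M0
      exact ⟨w /ₘ M0, by rw [hw']; linear_combination -this⟩
    have hdiv2 : M0 ∣ h * w' ^ 2 - C c * (X - C t) := by
      obtain ⟨q, hq⟩ := hd1
      obtain ⟨r, hr⟩ := hww
      have e1 : h = M0 * q + C c * (X - C t) * z ^ 2 := by rw [← hq]; ring
      have e2 : w' = w - M0 * r := by rw [← hr]; ring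
      have e3 : w * z = 1 - u * M0 := by rw [← huw]; ring
      refine ⟨q * w' ^ 2 + C c * (X - C t) * (z * r * (z * (M0 * r) - 2 * (z * w)) +
        u * (u * M0 - 2)), ?_⟩
      have e4 : z ^ 2 * w' ^ 2 = (w * z) ^ 2 + M0 * (z * r * (z * (M0 * r) - 2 * (z * w))) := by
        rw [e2]; ring
      have e5 : (w * z) ^ 2 = 1 + M0 * (u * (u * M0 - 2)) := by rw [e3]; ring
      calc h * w' ^ 2 - C c * (X - C t)
          = M0 * (q * w' ^ 2) + C c * (X - C t) * (z ^ 2 * w' ^ 2) - C c * (X - C t) := by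
            rw [e1]; ring
        _ = _ := by rw [e4, e5]; ring
    have hw0 : w' = 0 := by
      refine hN w' ?_ ?_ ?_
      · rw [hw', ← hd]
        exact natDegree_modByMonic_lt _ hM (by
          intro h1
          rw [h1, natDegree_one] at hd
          omega)
      · rw [lam_congr hM hdiv2]
        refine lam_small hM ?_
        rw [hd]
        refine lt_of_le_of_lt (natDegree_C_mul_le _ _) ?_
        rw [natDegree_X_sub_C]
        norm_num
      · rw [lam_congr (g' := C c * (X - C t) * X) hM (by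
          rw [← sub_mul]; exact Dvd.dvd.mul_right hdiv2 X)]
        refine lam_small hM ?_
        rw [hd]
        refine lt_of_le_of_lt natDegree_mul_le ?_
        have := natDegree_C_mul_le c (X - C t)
        rw [natDegree_X_sub_C] at this
        rw [natDegree_X]
        omega
    rw [hw0, sub_zero] at hww
    obtain ⟨r, hr⟩ := hww
    have : M0 ∣ 1 := ⟨u + r * z, by rw [← huw, hr]; ring⟩
    have := natDegree_le_of_dvd this one_ne_zero
    rw [hd, natDegree_one] at this
    omega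
  -- (4)
  obtain ⟨sub1, sub2, sub3⟩ := hSUB F M0 t0 hM hsep hd ht0
  obtain ⟨k', hk'cop, hk'sq, hk'B, hkk'⟩ := hDUA F hLA M0 k (PB M0 t0) hM hsep kcop
    (fun b hb => hb.1) sub1 sub2 sub3 H3
  -- (5)
  have S1 : S M0 1 = 0 := by
    have := hSEU F h2 M0 1 hM one_ne_zero
    rwa [C_1, hd, if_pos (by decide)] at this
  have H5 : ∀ b ∈ PB M0 t0, S M0 b = 0 := by
    rintro b ⟨hb, c, t, z, hc, htt, ht, hs, hdiv⟩
    set T : F[X] := (X - C t) * (X - C t0) with hT
    have hTm : T.Monic := (monic_X_sub_C t).mul (monic_X_sub_C t0)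
    have hTc : IsCoprime M0 T := (cX ht).mul_right cop0
    have hcT : IsCoprime M0 (C c * T) := (isCoprime_const M0 hc).mul_right hTc
    rw [ssq1 b (C c * T) z hb hcT (by
      have e : b - C c * T * z ^ 2 = b - C c * ((X - C t) * (X - C t0)) * z ^ 2 := by rw [hT]
      rw [e]; exact hdiv)]
    have e1 := hSCR F h2 M0 T (C c) hM hTm hTc (isCoprime_const _ hc)
    have hMT : (M0 * T).Monic := hM.mul hTm
    have e2 := hSEU F h2 (M0 * T) c hMT hc
    have hdT : T.natDegree = 2 := by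
      rw [hT, natDegree_mul (X_sub_C_ne_zero t) (X_sub_C_ne_zero t0), natDegree_X_sub_C,
        natDegree_X_sub_C]
    rw [hM.natDegree_mul hTm, hd, hdT, if_pos (by decide)] at e2
    have hne : t - t0 ≠ 0 := sub_ne_zero.2 htt
    have hne' : t0 - t ≠ 0 := sub_ne_zero.2 (Ne.symm htt)
    have c1 : IsCoprime (X - C t) (X - C t0) := isCoprime_X_sub (by simpa using hne')
    have c2 : IsCoprime ((X - C t) * (X - C t0)) (C c * M0) :=
      ((isCoprime_const _ hc).mul_right hTc.symm)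
    have e3 := hSCR F h2 (X - C t) (X - C t0) (C c * M0) (monic_X_sub_C t) (monic_X_sub_C t0)
      c1 c2
    have v1 : eval t (C c * M0 * (X - C t0)) = c * eval t M0 * (t - t0) := by simp
    have v2 : eval t0 (C c * M0 * (X - C t)) = c * eval t0 M0 * (t0 - t) := by simp
    have n1 : c * eval t M0 * (t - t0) ≠ 0 := mul_ne_zero (mul_ne_zero hc ht) hne
    have n2 : c * eval t0 M0 * (t0 - t) ≠ 0 := mul_ne_zero (mul_ne_zero hc ht0) hne'
    rw [(hSSQ F h2 (X - C t) (monic_X_sub_C t)).2.1 t rfl _ (by rw [v1]; exact n1),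
      (hSSQ F h2 (X - C t0) (monic_X_sub_C t0)).2.1 t0 rfl _ (by rw [v2]; exact n2), v1, v2] at e3
    obtain ⟨s, hs⟩ := hs
    have hs0 : s ≠ 0 := by
      rintro rfl
      exact (mul_ne_zero ht ht0) (by rw [hs]; ring)
    have e4 : on (c * eval t0 M0 * (t0 - t)) = -on (c * eval t M0 * (t - t0)) := by
      rw [← one2 _ n1, ← one1 (-(c * eval t M0 * (t - t0))) (s / eval t M0) (neg_ne_zero.2 n1)
        (div_ne_zero hs0 ht)]
      congr 1
      field_simp
      linear_combination (-(t - t0)) * hs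
    rw [e4, add_neg_cancel] at e3
    rw [e2] at e1
    have e5 : S T (C c * M0) = 0 := e3
    rw [e5, add_zero] at e1
    exact e1.symm
  -- (6)
  have H6 : ∀ b ∈ PB M0 t0, S M0 (b * k') = S M0 k' := by
    intro b hb
    have := hk'B b hb
    unfold sy at this
    rw [S1, H5 b hb, sub_zero, zero_sub] at this
    exact (neg_add_eq_zero.1 this).symm
  have pbm : ∀ t : F, t ≠ t0 → eval t M0 ≠ 0 → IsSquare (eval t M0 * eval t0 M0) →
      (X - C t) * (X - C t0) ∈ PB M0 t0 := by
    intro t htt ht hs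
    exact ⟨(cX ht).mul_right cop0, 1, t, 1, one_ne_zero, htt, ht, hs, by simp⟩
  -- the forward direction
  have fwd : ∀ g : F[X], IsCoprime M0 g → IsSquare (nn M0 g) → S M0 g ≠ 0 →
      ∃ b ∈ PB M0 t0, S M0 (g * b) = 0 := by
    intro g hg hgs hS
    have hg1 : IsCoprime M0 (g * (X - C t0)) := hg.mul_right cop0
    have hg2 : IsCoprime M0 (g * (X - C t0) * (X - C t0)) := hg1.mul_right cop0
    have e1 : S M0 (g * (X - C t0) * (X - C t0)) = S M0 g := by
      refine ssq1 _ g (X - C t0) hg2 hg ?_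
      have : g * (X - C t0) * (X - C t0) - g * (X - C t0) ^ 2 = 0 := by ring
      rw [this]
      exact dvd_zero _
    have e2 : IsSquare (nn M0 (g * (X - C t0) * (X - C t0))) := by
      rw [gmul, gmul]
      obtain ⟨r, hr⟩ := hgs
      exact ⟨r * nn M0 (X - C t0), by rw [hr]; ring⟩
    have e3 : Anis (gm M0 (g * (X - C t0) * (X - C t0))) := by
      by_contra h'
      exact hS (e1.symm.trans ((L1 _ hg2 e2).1.2 h'))
    obtain ⟨t, htZ, ht, hm, hs⟩ := hFWD F M0 (g * (X - C t0)) t0 hM hsep hd hg1 ht0 e3 {t0}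
    have htt : t ≠ t0 := by simpa using htZ
    refine ⟨_, pbm t htt ht hs, ?_⟩
    have e4 : g * ((X - C t) * (X - C t0)) = g * (X - C t0) * (X - C t) := by ring
    rw [e4]
    exact S0 _ (hg1.mul_right (cX ht)) hm
  -- (7)
  have Sk' : S M0 k' = 0 := by
    by_contra hne
    obtain ⟨b, hb, hb0⟩ := fwd k' hk'cop hk'sq hne
    apply hne
    rw [← H6 b hb, mul_comm, hb0]
  -- (8)
  have hkk : S M0 (k * k') ≠ 0 := by
    intro h0
    apply hkk'
    unfold sy
    rw [S1, Sk, Sk', h0]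
    simp
  have hkks : IsSquare (nn M0 (k * k')) := by
    rw [gmul]
    exact hsq.mul hk'sq
  obtain ⟨b, hb, hb0⟩ := fwd (k * k') (kcop.mul_right hk'cop) hkks hkk
  have symm : ∀ a b : F[X], sy M0 a b = sy M0 b a := by
    intro a b
    unfold sy
    rw [mul_comm a b]
    abel
  have e1 : sy M0 (k * b) k' = sy M0 k k' := by
    rw [symm, hSYB F hLA M0 k' k b hM hsep hk'cop kcop hb.1, symm k' k, symm k' b, hk'B b hb,
      add_zero]
  apply hkk'
  rw [← e1]
  unfold sy
  rw [S1, H2 b hb, Sk', show k * b * k' = k * k' * b by ring, hb0]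
  simp

end Pool.Agent.H81.WT
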