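import Pool.Agent.H63.WT.TB
import Pool.Agent.H81.WT.REV

/-!
# Nondegeneracy: an element outside a subgroup is detected by a symbol
-/

set_option autoImplicit false

open Polynomial Matrix Pool.Agent.H63.WT

namespace Pool.Agent.H81.WT

open UniqueFactorizationMonoid (normalizedFactors)

theorem sol_symm' {F : Type} [Field F] {a b : F} (h : Pool.Agent.H32.QC.Sol a b) :
    Pool.Agent.H32.QC.Sol b a := by
  obtain ⟨x, y, z, h1, h2⟩ := h
  refine ⟨y, x, z, ?_, by rw [h2]; ring⟩
  rcases h1 with h | h | h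
  · exact Or.inr (Or.inl h)
  · exact Or.inl h
  · exact Or.inr (Or.inr h)

section fac

variable {F : Type} [Field F]

open Classical in
/-- the irreducible factors -/
noncomputable def facs (M : F[X]) : Finset F[X] := (normalizedFactors M).toFinset

theorem mem_facs {M p : F[X]} (hp : p ∈ facs M) : Irreducible p ∧ p.Monic ∧ p ∣ M := by
  classical
  rw [facs, Multiset.mem_toFinset] at hp
  have h1 := UniqueFactorizationMonoid.irreducible_of_normalized_factor p hp
  refine ⟨h1, ?_, UniqueFactorizationMonoid.dvd_of_mem_normalizedFactors hp⟩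
  rw [← UniqueFactorizationMonoid.normalize_normalized_factor p hp]
  exact monic_normalize h1.ne_zero

theorem facs_coprime {M p q : F[X]} (hp : p ∈ facs M) (hq : q ∈ facs M) (hpq : p ≠ q) :
    IsCoprime p q := by
  classical
  refine (mem_facs hp).1.coprime_iff_not_dvd.2 fun h => hpq ?_
  rw [facs, Multiset.mem_toFinset] at hp hq
  exact UniqueFactorizationMonoid.normalizedFactors_eq_of_dvd M p hp q hq h

theorem dvd_of_facs {M x : F[X]} (hM : M ≠ 0) (hsep : M.Separable) (h : ∀ p ∈ facs M, p ∣ x) :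
    M ∣ x := by
  classical
  have h1 : (facs M).prod id ∣ x := by
    refine Finset.prod_dvd_of_coprime ?_ h
    intro p hp q hq hpq
    exact facs_coprime hp hq hpq
  have hnd : (normalizedFactors M).Nodup :=
    (UniqueFactorizationMonoid.squarefree_iff_nodup_normalizedFactors hM).1 hsep.squarefree
  have h2 : (facs M).prod id = (normalizedFactors M).prod := by
    rw [Finset.prod_eq_multiset_prod, facs, Multiset.toFinset_val, hnd.dedup, Multiset.map_id]
  rw [h2] at h1
  exact ((UniqueFactorizationMonoid.prod_normalizedFactors hM).dvd_iff_dvd_left).1 h1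

theorem crt_facs (M : F[X]) (z : F[X] → F[X]) : ∃ r : F[X], ∀ p ∈ facs M, p ∣ r - z p := by
  have hI : Pairwise (Function.onFun IsCoprime
      fun p : {p // p ∈ facs M} => Ideal.span {(p : F[X])}) := by
    intro p q hpq
    rw [Function.onFun, Ideal.isCoprime_span_singleton_iff]
    exact facs_coprime p.2 q.2 fun h => hpq (Subtype.ext h)
  obtain ⟨r, hr⟩ := Ideal.exists_forall_sub_mem_ideal hI fun p => z p
  exact ⟨r, fun p hp => Ideal.mem_span_singleton.1 (hr ⟨p, hp⟩)⟩

/-- finitely many classes modulo an irreducible polynomial -/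
theorem fin_classes (hLA : LA F) {p : F[X]} (hp : Irreducible p) : ∃ (n : ℕ) (τ : F[X] → Fin n),
    ∀ a a' : F[X], IsCoprime p a → IsCoprime p a' → τ a = τ a' → ∃ z : F[X],
      p ∣ a - a' * z ^ 2 := by
  classical
  have : Fact (Irreducible p) := ⟨hp⟩
  have : FiniteDimensional F (AdjoinRoot p) := (AdjoinRoot.powerBasis hp.ne_zero).finite
  obtain ⟨-, hn⟩ := hLA.2 (AdjoinRoot p) inferInstance
  have hfin : Finite ((AdjoinRoot p)ˣ ⧸ (powMonoidHom 2 : (AdjoinRoot p)ˣ →* _).range) := by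
    rw [← Subgroup.index_ne_zero_iff_finite]
    unfold Pool.Agent.H32.QC.nsq at hn
    omega
  obtain ⟨n, ⟨e⟩⟩ := Finite.exists_equiv_fin
    ((AdjoinRoot p)ˣ ⧸ (powMonoidHom 2 : (AdjoinRoot p)ˣ →* _).range)
  have hne : ∀ {a : F[X]}, IsCoprime p a → AdjoinRoot.mk p a ≠ 0 := by
    intro a ha h0
    rw [AdjoinRoot.mk_eq_zero] at h0
    exact hp.coprime_iff_not_dvd.1 ha h0
  refine ⟨n, fun a => if h : AdjoinRoot.mk p a ≠ 0 then
    e (QuotientGroup.mk (Units.mk0 _ h)) else e 1, ?_⟩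
  intro a a' ha ha' h
  dsimp only at h
  rw [dif_pos (hne ha), dif_pos (hne ha')] at h
  have h1 := e.injective h.symm
  rw [QuotientGroup.eq] at h1
  obtain ⟨w, hw⟩ := h1
  obtain ⟨z, hz⟩ := AdjoinRoot.mk_surjective (w : AdjoinRoot p)
  refine ⟨z, ?_⟩
  rw [← AdjoinRoot.mk_eq_zero, map_sub, map_mul, map_pow, hz]
  have h2 := congrArg (fun u : (AdjoinRoot p)ˣ => (u : AdjoinRoot p)) hw
  simp only [powMonoidHom_apply, Units.val_pow_eq_pow_val, Units.val_mul, Units.val_inv_eq_inv_val,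
    Units.val_mk0] at h2
  rw [h2, mul_inv_cancel_left₀ (hne ha'), sub_self]

end fac

/-- linear algebra: a separating space of functionals is everything -/
theorem dual_all {V : Type} [AddCommGroup V] [Module (ZMod 2) V]
    [FiniteDimensional (ZMod 2) V] (D : Submodule (ZMod 2) (Module.Dual (ZMod 2) V))
    (h : ∀ v : V, (∀ f ∈ D, f v = 0) → v = 0) : D = ⊤ := by
  have h1 : D.dualCoannihilator = ⊥ := by
    rw [eq_bot_iff]
    intro v hv
    rw [Submodule.mem_dualCoannihilator] at hv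
    exact h v hv
  have h2 := Subspace.dualCoannihilator_dualAnnihilator_eq (W := D)
  rw [h1, Submodule.dualAnnihilator_bot] at h2
  exact h2.symm

open Classical in
/-- the sign of a class -/
noncomputable def th {F : Type} [Field F] (x : WG F) : ZMod 2 := if x = 0 then 0 else 1

section

variable {F : Type} [Field F]

theorem th_zero : th (0 : WG F) = 0 := by unfold th; rw [if_pos rfl]

theorem th_eq_zero {x : WG F} (h : th x = 0) : x = 0 := by
  unfold th at h
  by_contra hx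
  rw [if_neg hx] at h
  exact one_ne_zero h

theorem th_add (iv1 : ∀ x : WG F, I2 x → x + x = 0)
    (iv2 : ∀ x y : WG F, I2 x → I2 y → x ≠ 0 → y ≠ 0 → x = y) {x y : WG F} (hx : I2 x)
    (hy : I2 y) : th (x + y) = th x + th y := by
  by_cases h1 : x = 0
  · rw [h1, th_zero, zero_add, zero_add]
  · by_cases h2 : y = 0
    · rw [h2, th_zero, add_zero, add_zero]
    · have h3 := iv2 x y hx hy h1 h2
      rw [← h3, iv1 x hx, th_zero]
      exact (CharTwo.add_self_eq_zero _).symm

theorem sy_symm (A a b : F[X]) : sy A a b = sy A b a := by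
  unfold sy
  rw [mul_comm a b]
  abel

theorem sy_one (A a : F[X]) : sy A a 1 = 0 := by
  unfold sy
  rw [mul_one]
  abel

theorem zmod2_smul {V : Type} [AddCommGroup V] [Module (ZMod 2) V] {p : V → Prop} (h0 : p 0)
    (c : ZMod 2) {v : V} (hv : p v) : p (c • v) := by
  have : c = 0 ∨ c = 1 := by revert c; decide
  rcases this with rfl | rfl
  · rwa [zero_smul]
  · rwa [one_smul]

end

/-- the pairing is nondegenerate -/
theorem nondeg (hSYC : T_SYC) (hSYF : T_SYF) (hSYP : T_SYP) {F : Type} [Field F] [CharZero F]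
    (hLA : LA F) {M0 : F[X]} (hM : M0.Monic) (hsep : M0.Separable) {a : F[X]}
    (ha : IsCoprime M0 a) (h : ∀ g : F[X], IsCoprime M0 g → sy M0 a g = 0) :
    ∃ z : F[X], M0 ∣ a - z ^ 2 := by
  classical
  have key : ∀ p ∈ facs M0, SqM p a := by
    intro p hp
    obtain ⟨hpi, hpm, N, hN⟩ := mem_facs hp
    by_contra hns
    have hNm : N.Monic := by
      have := hM
      rw [hN] at this
      exact hpm.of_mul_monic_left this
    have hsepN : (p * N).Separable := hN ▸ hsep
    have hpN : IsCoprime p N := hsepN.isCoprime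
    have hpa : IsCoprime p a := (hN ▸ ha : IsCoprime (p * N) a).of_mul_left_left
    have hNa : IsCoprime N a := (hN ▸ ha : IsCoprime (p * N) a).of_mul_left_right
    obtain ⟨gp, hgp, hgp'⟩ := hSYP F hLA p a hpm hpi hpa hns
    obtain ⟨u, v, huv⟩ := hpN
    set g : F[X] := gp * (v * N) + u * p with hg
    have e1 : p ∣ g - gp := ⟨u * (1 - gp), by
      rw [hg]
      linear_combination gp * huv⟩
    have e2 : N ∣ g - 1 := ⟨v * (gp - 1), by
      rw [hg]
      linear_combination huv⟩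
    have c1 : IsCoprime p g := by
      obtain ⟨q, hq⟩ := e1
      have : g = gp + p * q := by rw [← hq]; ring
      rw [this]
      exact hgp.add_mul_left_right q
    have c2 : IsCoprime N g := by
      obtain ⟨q, hq⟩ := e2
      have : g = 1 + N * q := by rw [← hq]; ring
      rw [this]
      exact isCoprime_one_right.add_mul_left_right q
    have c3 : IsCoprime (p * N) g := c1.mul_left c2
    have hsp : p.Separable := hsepN.of_mul_left
    have hsN : N.Separable := hsepN.of_mul_right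
    have e3 := hSYF F hLA p N a g hpm hNm hsepN (hN ▸ ha) c3
    rw [← hN, h g (hN ▸ c3), (hSYC F hLA p a hpm hsp hpa).2.2 g gp c1 e1,
      (hSYC F hLA N a hNm hsN hNa).2.2 g 1 c2 e2, sy_one, add_zero] at e3
    exact hgp' e3.symm
  choose! s hs using key
  obtain ⟨r, hr⟩ := crt_facs M0 s
  refine ⟨r, dvd_of_facs hM.ne_zero hsep fun p hp => ?_⟩
  have e : a - r ^ 2 = (a - s p ^ 2) - (r - s p) * (r + s p) := by ring
  rw [e]
  exact dvd_sub (hs p hp) (Dvd.dvd.mul_right (hr p hp) _)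

/-- the norm is a square if the symbols with the constants vanish -/
theorem nn_square (hGDT : T_GDT) (hSSQ : T_SSQ) (hSCL : T_SCL) (hCLS : T_CLS) (hONE : T_ONE)
    (hI2D : T_I2D) (hPFI : T_PFI) {F : Type} [Field F] (h2 : (2 : F) ≠ 0)
    (hNI : Pool.Agent.H32.QC.NI F) (hns : 2 < Pool.Agent.H32.QC.nsq F) {M0 k' : F[X]}
    (hM : M0.Monic) (hk' : IsCoprime M0 k')
    (h : ∀ c : F, c ≠ 0 → sy M0 (C c) k' = 0) : IsSquare (nn M0 k') := by
  by_contra hsq
  obtain ⟨-, gsym, gdet, -, -, -, -⟩ := hGDT F M0 hM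
  obtain ⟨-, -, ssq3⟩ := hSSQ F h2 M0 hM
  obtain ⟨-, cls2, -, cls4, -⟩ := hCLS F h2
  obtain ⟨-, one2, one3, -⟩ := hONE F h2
  set d : F := nn M0 k' with hd
  have sn : ∀ {g : F[X]}, IsCoprime M0 g → SN (gm M0 g) := fun hg => ⟨gsym _, (gdet _).2 hg⟩
  have snn : ∀ {ι : Type} [Fintype ι] [DecidableEq ι] {A : Matrix ι ι F}, SN A → SN (-A) := by
    intro ι _ _ A hA
    refine ⟨by rw [Matrix.IsSymm, Matrix.transpose_neg, hA.1], ?_⟩
    rw [Matrix.det_neg]
    exact mul_ne_zero (pow_ne_zero _ (neg_ne_zero.2 one_ne_zero)) hA.2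
  have snb : ∀ {ι κ : Type} [Fintype ι] [DecidableEq ι] [Fintype κ] [DecidableEq κ]
      {A : Matrix ι ι F} {B : Matrix κ κ F}, SN A → SN B → SN (fromBlocks A 0 0 B) := by
    intro ι κ _ _ _ _ A B hA hB
    refine ⟨?_, ?_⟩
    · rw [Matrix.IsSymm, Matrix.fromBlocks_transpose, hA.1, hB.1, Matrix.transpose_zero,
        Matrix.transpose_zero]
    · rw [Matrix.det_fromBlocks_zero₂₁]
      exact mul_ne_zero hA.2 hB.2
  have cop1 : IsCoprime M0 (1 : F[X]) := isCoprime_one_right
  have hd0 : d ≠ 0 := mul_ne_zero ((gdet _).2 hk') ((gdet _).2 cop1)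
  set ψ := fromBlocks (gm M0 1) 0 0 (-gm M0 k') with hψ
  have snψ : SN ψ := snb (sn cop1) (snn (sn hk'))
  have clψ : cls ψ = S M0 1 - S M0 k' := by
    rw [hψ, cls2 _ _ _ _ (sn cop1) (snn (sn hk')), cls4 _ _ (sn hk'), sub_eq_add_neg]
    rfl
  have dg : ∀ x y : F, x ≠ 0 → y ≠ 0 → SN (Matrix.diagonal ![x, y]) ∧
      cls (Matrix.diagonal ![x, y]) = on x + on y := by
    intro x y hx hy
    have hv : ∀ i, (![x, y] : Fin 2 → F) i ≠ 0 := by
      intro i; fin_cases i <;> simpa
    refine ⟨⟨Matrix.isSymm_diagonal _, ?_⟩, ?_⟩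
    · rw [Matrix.det_diagonal]
      exact Finset.prod_ne_zero_iff.2 fun i _ => hv i
    · rw [one3 (Fin 2) ![x, y] hv]
      simp [Fin.sum_univ_two]
  obtain ⟨snB, clB⟩ := dg 1 (-d) one_ne_zero (neg_ne_zero.2 hd0)
  have hI : I2 (cls ψ - cls (Matrix.diagonal ![1, -d])) := by
    have e1 : cls ψ - cls (Matrix.diagonal ![1, -d]) =
        cls (fromBlocks ψ 0 0 (-Matrix.diagonal ![1, -d])) := by
      rw [cls2 _ _ _ _ snψ (snn snB), cls4 _ _ snB, sub_eq_add_neg]
    rw [e1, hI2D F h2 _ _ (M0.natDegree + 1) (snb snψ (snn snB)) (by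
      simp only [Fintype.card_sum, Fintype.card_fin]; ring)]
    rw [Matrix.det_fromBlocks_zero₂₁, hψ, Matrix.det_fromBlocks_zero₂₁, Matrix.det_neg,
      Matrix.det_neg, Matrix.det_diagonal]
    simp only [Fintype.card_fin, Fin.prod_univ_two, Matrix.cons_val_zero, Matrix.cons_val_one]
    refine ⟨d, ?_⟩
    have e2 : ((-1 : F) ^ M0.natDegree) ^ 2 = 1 := by
      rw [← pow_mul, mul_comm, pow_mul]; norm_num
    have e3 : d = (gm M0 k').det * (gm M0 1).det := rfl
    calc (-1 : F) ^ (M0.natDegree + 1) * ((gm M0 1).det * ((-1) ^ M0.natDegree *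
          (gm M0 k').det) * ((-1) ^ 2 * (1 * -d)))
        = ((-1 : F) ^ M0.natDegree) ^ 2 * (((gm M0 k').det * (gm M0 1).det) * d) := by ring
      _ = d * d := by rw [e2, one_mul, ← e3]
  have hall : ∀ c : F, c ≠ 0 → Pool.Agent.H32.QC.Sol d c := by
    intro c hc
    have e1 := (hSCL F h2 hNI hns c hc).2 _ _ ψ (Matrix.diagonal ![1, -d]) snψ snB hI
    have copc : IsCoprime M0 (C c * 1) := by
      rw [mul_one]; exact isCoprime_const M0 hc
    have copck : IsCoprime M0 (C c * k') := (isCoprime_const M0 hc).mul_right hk'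
    have e2 : cls (c • ψ) = S M0 (C c) - S M0 (C c * k') := by
      have : c • ψ = fromBlocks (gm M0 (C c * 1)) 0 0 (-gm M0 (C c * k')) := by
        rw [hψ, ssq3, ssq3, Matrix.fromBlocks_smul, smul_zero, smul_neg]
      rw [this, cls2 _ _ _ _ (sn copc) (snn (sn copck)), cls4 _ _ (sn copck), sub_eq_add_neg,
        mul_one]
      rfl
    have hcd : -(c * d) ≠ 0 := neg_ne_zero.2 (mul_ne_zero hc hd0)
    have e3 : cls (c • Matrix.diagonal ![1, -d]) = on c + on (-(c * d)) := by
      rw [← (dg c (-(c * d)) hc hcd).2]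
      congr 1
      ext i j
      fin_cases i <;> fin_cases j <;> simp
    have e4 := h c hc
    unfold sy at e4
    rw [e2, e3, clψ, clB, one2 _ (mul_ne_zero hc hd0), one2 _ hd0] at e1
    have e5 : pf c d = 0 := by
      unfold pf
      have e6 : on 1 - on c - on d + on (c * d) =
          (S M0 1 - S M0 (C c) - S M0 k' + S M0 (C c * k')) +
          ((S M0 (C c) - S M0 (C c * k') - (on c + -on (c * d))) -
            (S M0 1 - S M0 k' - (on 1 + -on d))) := by abel
      rw [e6, e4, e1]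
      abel
    exact sol_symm' (((hPFI F h2 c d hc hd0).2).1 e5)
  obtain ⟨N, hN, hNs⟩ := hNI d hd0 hsq
  have : N = ⊤ := by
    ext b
    simp only [Subgroup.mem_top, iff_true]
    exact (hNs b).2 (hall b b.ne_zero)
  rw [this, Subgroup.index_top] at hN
  omega

theorem pf_DUA (hSYB : T_SYB) (hSYC : T_SYC) (hSYF : T_SYF) (hSYI : T_SYI) (hIV : T_IV)
    (hGDT : T_GDT) (hPFI : T_PFI) (hSYP : T_SYP) (hSSQ : T_SSQ) (hSCL : T_SCL) (hCLS : T_CLS)
    (hONE : T_ONE) (hI2D : T_I2D) : T_DUA := by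
  intro F _ _ hLA M0 k B hM hsep hk hBcop hBc hBmul hBsat hkB
  classical
  have h2 := hLA.1
  obtain ⟨hNI, hns⟩ := hLA.2 F inferInstance
  obtain ⟨iv1, iv2, -, -⟩ := hIV F h2 hNI hns
  obtain ⟨ssq1, -, -⟩ := hSSQ F h2 M0 hM
  obtain ⟨-, gsym, gdet, gmul, -, gcongr, -⟩ := hGDT F M0 hM
  -- bilinearity
  have bil : ∀ {a b g : F[X]}, IsCoprime M0 a → IsCoprime M0 b → IsCoprime M0 g →
      th (sy M0 a (b * g)) = th (sy M0 a b) + th (sy M0 a g) := by
    intro a b g ha hb hg
    rw [hSYB F hLA M0 a b g hM hsep ha hb hg]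
    exact th_add iv1 iv2 (hSYI F h2 M0 a b hM ha hb) (hSYI F h2 M0 a g hM ha hg)
  let f : F[X] → ({g : F[X] // IsCoprime M0 g} → ZMod 2) := fun a g => th (sy M0 a g.1)
  have fmul : ∀ {a b : F[X]}, IsCoprime M0 a → IsCoprime M0 b → f (a * b) = f a + f b := by
    intro a b ha hb
    funext g
    show th (sy M0 (a * b) g.1) = th (sy M0 a g.1) + th (sy M0 b g.1)
    rw [sy_symm M0 (a * b), sy_symm M0 a, sy_symm M0 b]
    exact bil g.2 ha hb
  have f1 : f 1 = 0 := by
    funext g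
    show th (sy M0 1 g.1) = 0
    rw [sy_symm, sy_one, th_zero]
  have cop1 : IsCoprime M0 (1 : F[X]) := isCoprime_one_right
  -- congruence
  have fcongr : ∀ {a a' z : F[X]}, IsCoprime M0 a → IsCoprime M0 a' → M0 ∣ a - a' * z ^ 2 →
      f a = f a' := by
    intro a a' z ha ha' hd
    funext g
    show th (sy M0 a g.1) = th (sy M0 a' g.1)
    unfold sy
    rw [ssq1 a a' z ha ha' hd, ssq1 (a * g.1) (a' * g.1) z (ha.mul_right g.2)
      (ha'.mul_right g.2) (by
        have e : a * g.1 - a' * g.1 * z ^ 2 = (a - a' * z ^ 2) * g.1 := by ring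
        rw [e]
        exact Dvd.dvd.mul_right hd _)]
  let V : Submodule (ZMod 2) ({g : F[X] // IsCoprime M0 g} → ZMod 2) :=
    { carrier := {v | ∃ a, IsCoprime M0 a ∧ v = f a}
      add_mem' := by
        rintro _ _ ⟨a, ha, rfl⟩ ⟨b, hb, rfl⟩
        exact ⟨a * b, ha.mul_right hb, (fmul ha hb).symm⟩
      zero_mem' := ⟨1, cop1, f1.symm⟩
      smul_mem' := fun c v hv => zmod2_smul (p := fun v => ∃ a, IsCoprime M0 a ∧ v = f a)
        ⟨1, cop1, f1.symm⟩ c hv }
  have hVmem : ∀ {a : F[X]}, IsCoprime M0 a → f a ∈ V := fun {a} ha => ⟨a, ha, rfl⟩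
  -- finiteness
  have hfin : Finite V := by
    have h3 : ∀ p : {p // p ∈ facs M0}, ∃ (n : ℕ) (τ : F[X] → Fin n),
        ∀ a a' : F[X], IsCoprime p.1 a → IsCoprime p.1 a' → τ a = τ a' → ∃ z : F[X],
          p.1 ∣ a - a' * z ^ 2 := fun p => fin_classes hLA (mem_facs p.2).1
    choose n τ hτ using h3
    let T : F[X] → ((p : {p // p ∈ facs M0}) → Fin (n p)) := fun a p => τ p a
    have hT : ∀ a a' : F[X], IsCoprime M0 a → IsCoprime M0 a' → T a = T a' → f a = f a' := by
      intro a a' ha ha' hTT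
      have h4 : ∀ p ∈ facs M0, ∃ z : F[X], p ∣ a - a' * z ^ 2 := by
        intro p hp
        have hpd := (mem_facs hp).2.2
        exact hτ ⟨p, hp⟩ a a' (ha.of_isCoprime_of_dvd_left hpd)
          (ha'.of_isCoprime_of_dvd_left hpd) (congrFun hTT ⟨p, hp⟩)
      choose! z hz using h4
      obtain ⟨r, hr⟩ := crt_facs M0 z
      refine fcongr ha ha' (z := r) (dvd_of_facs hM.ne_zero hsep fun p hp => ?_)
      have e : a - a' * r ^ 2 = (a - a' * z p ^ 2) - (r - z p) * (a' * (r + z p)) := by ring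
      rw [e]
      exact dvd_sub (hz p hp) (Dvd.dvd.mul_right (hr p hp) _)
    let Ψ : ((p : {p // p ∈ facs M0}) → Fin (n p)) →
        ({g : F[X] // IsCoprime M0 g} → ZMod 2) :=
      fun t => if h : ∃ a, IsCoprime M0 a ∧ T a = t then f h.choose else 0
    have hsub : (V : Set ({g : F[X] // IsCoprime M0 g} → ZMod 2)) ⊆ Set.range Ψ := by
      rintro _ ⟨a, ha, rfl⟩
      have hex : ∃ b, IsCoprime M0 b ∧ T b = T a := ⟨a, ha, rfl⟩
      refine ⟨T a, ?_⟩
      show (if h : ∃ b, IsCoprime M0 b ∧ T b = T a then f h.choose else 0) = f a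
      rw [dif_pos hex]
      exact hT _ _ hex.choose_spec.1 ha hex.choose_spec.2
    exact ((Set.finite_range Ψ).subset hsub).to_subtype
  have hfd : FiniteDimensional (ZMod 2) V := inferInstance
  -- the functionals
  let ev : {g : F[X] // IsCoprime M0 g} → Module.Dual (ZMod 2) V := fun g =>
    (LinearMap.proj g : ({g : F[X] // IsCoprime M0 g} → ZMod 2) →ₗ[ZMod 2] ZMod 2).comp V.subtype
  have evapp : ∀ g (v : V), ev g v = v.1 g := fun g v => rfl
  let D : Submodule (ZMod 2) (Module.Dual (ZMod 2) V) :=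
    { carrier := {φ | ∃ g, φ = ev g}
      add_mem' := by
        rintro _ _ ⟨g, rfl⟩ ⟨g', rfl⟩
        refine ⟨⟨g.1 * g'.1, g.2.mul_right g'.2⟩, ?_⟩
        ext v
        obtain ⟨v, a, ha, rfl⟩ := v
        rw [LinearMap.add_apply, evapp, evapp, evapp]
        exact (bil ha g.2 g'.2).symm
      zero_mem' := by
        refine ⟨⟨1, cop1⟩, ?_⟩
        ext v
        obtain ⟨v, a, ha, rfl⟩ := v
        rw [LinearMap.zero_apply, evapp]
        show 0 = th (sy M0 a 1)
        rw [sy_one, th_zero]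
      smul_mem' := fun c φ hφ => zmod2_smul (p := fun φ => ∃ g, φ = ev g) (by
        refine ⟨⟨1, cop1⟩, ?_⟩
        ext v
        obtain ⟨v, a, ha, rfl⟩ := v
        rw [LinearMap.zero_apply, evapp]
        show 0 = th (sy M0 a 1)
        rw [sy_one, th_zero]) c hφ }
  have hD : D = ⊤ := by
    refine dual_all D fun v hv => ?_
    apply Subtype.ext
    funext g
    have := hv (ev g) ⟨g, rfl⟩
    rwa [evapp] at this
  -- the subspace
  have h1B : (1 : F[X]) ∈ B := by
    have := hBc 1 one_ne_zero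
    rwa [C_1] at this
  let BB : Submodule (ZMod 2) V :=
    { carrier := {v | ∃ b ∈ B, v.1 = f b}
      add_mem' := by
        rintro _ _ ⟨a, ha, hv⟩ ⟨b, hb, hw⟩
        refine ⟨a * b, hBmul a ha b hb, ?_⟩
        rw [fmul (hBcop a ha) (hBcop b hb), ← hv, ← hw]
        rfl
      zero_mem' := ⟨1, h1B, f1.symm⟩
      smul_mem' := fun c v hv => zmod2_smul (p := fun v : V => ∃ b ∈ B, v.1 = f b)
        ⟨1, h1B, f1.symm⟩ c hv }
  have hkBB : (⟨f k, hVmem hk⟩ : V) ∉ BB := by
    rintro ⟨b, hb, hkb⟩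
    have hbc := hBcop b hb
    have hkb' : f k = f b := hkb
    have h0 : f (k * b) = 0 := by
      rw [fmul hk hbc, hkb']
      funext g
      exact CharTwo.add_self_eq_zero _
    obtain ⟨z, hz⟩ := nondeg hSYC hSYF hSYP hLA hM hsep (hk.mul_right hbc)
      (fun g hg => th_eq_zero (congrFun h0 ⟨g, hg⟩))
    obtain ⟨v, u, huv⟩ := hbc
    apply hkB
    refine hBsat b k (z * u) hb hk ?_
    obtain ⟨q, hq⟩ := hz
    refine ⟨v * (k + b * u * k) + q * (b * u ^ 2), ?_⟩
    have e1 : z ^ 2 = k * b - M0 * q := by rw [← hq]; ring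
    calc k - b * (z * u) ^ 2 = k - b * u ^ 2 * z ^ 2 := by ring
      _ = k * ((u * b + v * M0) ^ 2) - b * u ^ 2 * (k * b - M0 * q) := by
        rw [e1, show u * b + v * M0 = 1 by rw [← huv]; ring]; ring
      _ = M0 * (v * (k * (v * M0 + u * b) + b * u * k) + q * (b * u ^ 2)) := by ring
      _ = _ := by rw [huv, mul_one]
  obtain ⟨χ, hχk, hχB⟩ := Submodule.exists_dual_map_eq_bot_of_notMem hkBB inferInstance
  obtain ⟨k', hk'⟩ : χ ∈ D := by rw [hD]; exact Submodule.mem_top
  have hB' : ∀ b ∈ B, sy M0 b k'.1 = 0 := by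
    intro b hb
    have h3 : χ ⟨f b, hVmem (hBcop b hb)⟩ ∈ BB.map χ :=
      Submodule.mem_map_of_mem (show (⟨f b, hVmem (hBcop b hb)⟩ : V) ∈ BB from ⟨b, hb, rfl⟩)
    rw [hχB, Submodule.mem_bot, hk', evapp] at h3
    exact th_eq_zero h3
  refine ⟨k'.1, k'.2, ?_, hB', ?_⟩
  · exact nn_square hGDT hSSQ hSCL hCLS hONE hI2D hPFI h2 hNI hns hM k'.2
      fun c hc => hB' _ (hBc c hc)
  · intro h0
    apply hχk
    rw [hk', evapp]
    show th (sy M0 k k'.1) = 0
    rw [h0, th_zero]

end Pool.Agent.H81.WT
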