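import Pool.Agent.H63.WT.TA
import Pool.Agent.H97.QCL.BIM
import Pool.Agent.H97.QCL.NDG
import Pool.Agent.H69.QCL.UNI
import Pool.Agent.H16.QCL.QUI
import Pool.Agent.H32.QCL.TER

/-!
# `I²` has two elements
-/

set_option autoImplicit false

open Polynomial Matrix Pool.Agent.H63.WT

namespace Pool.Agent.H81.WT

open Pool.Agent.H32.QC (Sol hil NI nsq)

theorem bimF : Pool.Agent.H32.QC.T_BIM := Pool.Agent.H97.QCL.pf_BIM
theorem ndgF : Pool.Agent.H32.QC.T_NDG := Pool.Agent.H97.QCL.pf_NDG
theorem uniF : Pool.Agent.H32.QC.T_UNI :=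
  Pool.Agent.H69.QCL.pf_UNI (Pool.Agent.H16.QCL.pf_QUI (Pool.Agent.H32.QCL.pf_TER bimF))

section

variable {F : Type} [Field F]

theorem sol_symm {a b : F} (h : Sol a b) : Sol b a := by
  obtain ⟨x, y, z, h1, h2⟩ := h
  refine ⟨y, x, z, ?_, by rw [h2]; ring⟩
  rcases h1 with h | h | h
  · exact Or.inr (Or.inl h)
  · exact Or.inl h
  · exact Or.inr (Or.inr h)

theorem hil_symm (a b : F) : hil a b = hil b a := by
  unfold Pool.Agent.H32.QC.hil
  by_cases h : Sol a b
  · rw [if_pos h, if_pos (sol_symm h)]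
  · rw [if_neg h, if_neg (fun h' => h (sol_symm h'))]

theorem sol_of_square {a : F} (b : F) (h : IsSquare a) : Sol a b := by
  obtain ⟨s, rfl⟩ := h
  exact ⟨1, 0, s, Or.inl one_ne_zero, by ring⟩

/-- binary forms -/
theorem on_binary (h2 : (2 : F) ≠ 0) (hCLS : T_CLS) (hONE : T_ONE) {a b c y z : F} (ha : a ≠ 0)
    (hb : b ≠ 0) (hc : c ≠ 0) (h : a * y ^ 2 + b * z ^ 2 = c) :
    on a + on b = on c + on (a * b * c) := by
  obtain ⟨-, -, c3, -, -⟩ := hCLS F h2
  obtain ⟨-, -, o3, -⟩ := hONE F h2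
  have e1 : cls (Matrix.diagonal ![a, b]) = on a + on b := by
    rw [o3 (Fin 2) ![a, b] (by intro i; fin_cases i <;> simpa)]
    simp [Fin.sum_univ_two]
  have e2 : cls (Matrix.diagonal ![c, a * b * c]) = on c + on (a * b * c) := by
    rw [o3 (Fin 2) ![c, a * b * c] (by
      intro i; fin_cases i
      · simpa using hc
      · simpa using ⟨⟨ha, hb⟩, hc⟩)]
    simp [Fin.sum_univ_two]
  have hsn : SN (Matrix.diagonal ![a, b]) := by
    refine ⟨Matrix.isSymm_diagonal _, ?_⟩
    rw [Matrix.det_diagonal]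
    simpa [Fin.prod_univ_two] using ⟨ha, hb⟩
  set U : Matrix (Fin 2) (Fin 2) F := !![y, -b * z; z, a * y] with hU
  have hdet : U.det = c := by
    rw [hU, Matrix.det_fin_two_of, ← h]
    ring
  have hu : IsUnit U.det := by rw [hdet]; exact hc.isUnit
  have := (c3 (Fin 2) (Fin 2) (Matrix.diagonal ![a, b]) U U⁻¹ hsn (Matrix.mul_nonsing_inv _ hu)
    (Matrix.nonsing_inv_mul _ hu)).2
  have e3 : Uᵀ * Matrix.diagonal ![a, b] * U = Matrix.diagonal ![c, a * b * c] := by
    rw [hU, ← h]
    ext i j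
    fin_cases i <;> fin_cases j <;>
      simp [Matrix.mul_apply, Fin.sum_univ_two, Matrix.diagonal_apply] <;> ring
  rw [e3, e1, e2] at this
  exact this.symm

/-- removing a represented value -/
theorem on_rep (h2 : (2 : F) ≠ 0) (hCLS : T_CLS) (hONE : T_ONE) :
    ∀ (n : ℕ) (a y : Fin n → F) (c : F), (∀ i, a i ≠ 0) → c ≠ 0 →
    ∑ i, a i * y i ^ 2 = c → ∃ L : List F, (∀ b ∈ L, b ≠ 0) ∧ L.length + 1 = n ∧
      ∑ i, on (a i) = on c + (L.map on).sum := by
  obtain ⟨o1, -, -, -⟩ := hONE F h2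
  intro n
  induction n with
  | zero =>
    intro a y c _ hc h
    simp only [Finset.univ_eq_empty, Finset.sum_empty] at h
    exact absurd h.symm hc
  | succ n ih =>
    intro a y c ha hc h
    rw [Fin.sum_univ_castSucc] at h
    rw [Fin.sum_univ_castSucc]
    set s : F := ∑ i : Fin n, a i.castSucc * y i.castSucc ^ 2 with hs
    set t := a (Fin.last n) with ht
    have ht0 : t ≠ 0 := ha _
    by_cases hs0 : s = 0
    · rw [hs0, zero_add] at h
      have hy : y (Fin.last n) ≠ 0 := by
        intro hy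
        rw [hy] at h
        exact hc (by rw [← h]; ring)
      refine ⟨List.ofFn fun i : Fin n => a i.castSucc, ?_, by simp, ?_⟩
      · intro b hb
        rw [List.mem_ofFn] at hb
        obtain ⟨i, rfl⟩ := hb
        exact ha _
      · rw [← h, o1 t _ ht0 hy, List.map_ofFn, List.sum_ofFn, add_comm]
        rfl
    · obtain ⟨L, hL, hLn, hsum⟩ := ih (fun i => a i.castSucc) (fun i => y i.castSucc) s
        (fun i => ha _) hs0 rfl
      rw [hsum]
      by_cases hy : y (Fin.last n) = 0
      · rw [hy] at h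
        have hcs : c = s := by rw [← h]; ring
        refine ⟨t :: L, ?_, by simp [hLn], ?_⟩
        · intro b hb
          rcases List.mem_cons.1 hb with rfl | hb
          · exact ht0
          · exact hL b hb
        · rw [hcs, List.map_cons, List.sum_cons]
          abel
      · have e := on_binary h2 hCLS hONE hs0 ht0 hc (y := 1) (z := y (Fin.last n))
          (by rw [← h]; ring)
        refine ⟨(s * t * c) :: L, ?_, by simp [hLn], ?_⟩
        · intro b hb
          rcases List.mem_cons.1 hb with rfl | hb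
          · exact mul_ne_zero (mul_ne_zero hs0 ht0) hc
          · exact hL b hb
        · rw [List.map_cons, List.sum_cons]
          calc on s + (L.map on).sum + on t = (on s + on t) + (L.map on).sum := by abel
            _ = _ := by rw [e]; abel

/-- reduction to at most four variables -/
theorem on_reduce (h2 : (2 : F) ≠ 0) (hNI : NI F) (hn : 2 < nsq F) (hCLS : T_CLS)
    (hONE : T_ONE) : ∀ (N : ℕ) (L : List F), L.length ≤ N → (∀ b ∈ L, b ≠ 0) →
    ∃ L' : List F, (∀ b ∈ L', b ≠ 0) ∧ L'.length ≤ 4 ∧ (L.map on).sum = (L'.map on).sum := by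
  obtain ⟨-, o2, -, -⟩ := hONE F h2
  intro N
  induction N using Nat.strong_induction_on with
  | _ N ih =>
    intro L hLN hL
    by_cases h4 : L.length ≤ 4
    · exact ⟨L, hL, h4, rfl⟩
    · match L, hLN, hL, h4 with
      | a :: b :: c :: d :: e :: L, hLN, hL, h4 =>
        have ha : a ≠ 0 := hL a (by simp)
        have hb : b ≠ 0 := hL b (by simp)
        have hc : c ≠ 0 := hL c (by simp)
        have hd : d ≠ 0 := hL d (by simp)
        have he : e ≠ 0 := hL e (by simp)
        have hv : ∀ i, (![a, b, c, d] : Fin 4 → F) i ≠ 0 := by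
          intro i; fin_cases i
          · exact ha
          · exact hb
          · exact hc
          · exact hd
        obtain ⟨y, hy⟩ := uniF F h2 hNI hn 4 ![a, b, c, d] le_rfl hv (-e) (neg_ne_zero.2 he)
        obtain ⟨K, hK, hKn, hsum⟩ := on_rep h2 hCLS hONE 4 ![a, b, c, d] y (-e) hv
          (neg_ne_zero.2 he) hy
        have hs4 : ∑ i, on ((![a, b, c, d] : Fin 4 → F) i) = on a + on b + on c + on d := by
          simp [Fin.sum_univ_four]
        rw [hs4, o2 e he] at hsum
        simp only [List.length_cons] at hLN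
        obtain ⟨L', h1', h2', h3'⟩ := ih (N - 1) (by omega) (K ++ L)
          (by rw [List.length_append]; omega)
          (by
            intro x hx
            rcases List.mem_append.1 hx with hx | hx
            · exact hK x hx
            · exact hL x (by simp [hx]))
        refine ⟨L', h1', h2', ?_⟩
        rw [← h3', List.map_append, List.sum_append]
        simp only [List.map_cons, List.sum_cons]
        calc on a + (on b + (on c + (on d + (on e + (L.map on).sum))))
            = (on a + on b + on c + on d) + on e + (L.map on).sum := by abel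
          _ = _ := by rw [hsum]; abel
      | [], _, _, h4 => exact absurd (by simp) h4
      | [_], _, _, h4 => exact absurd (by simp) h4
      | [_, _], _, _, h4 => exact absurd (by simp) h4
      | [_, _, _], _, _, h4 => exact absurd (by simp) h4
      | [_, _, _, _], _, _, h4 => exact absurd (by simp) h4

/-- parity of the dimension -/
theorem even_of_I2 (h2 : (2 : F) ≠ 0) (hCLS : T_CLS) (hW0 : T_W0) {m : ℕ} {a : Fin m → F}
    (ha : ∀ i, a i ≠ 0) (hx : I2 (cls (Matrix.diagonal a))) : Even m := by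
  obtain ⟨-, c2, -, c4, -⟩ := hCLS F h2
  obtain ⟨n, A, hA, -, hAx⟩ := hx
  have hD : SN (Matrix.diagonal a) := by
    refine ⟨Matrix.isSymm_diagonal _, ?_⟩
    rw [Matrix.det_diagonal]
    exact Finset.prod_ne_zero_iff.2 fun i _ => ha i
  have hD' : SN (-Matrix.diagonal a) := by
    refine ⟨by rw [Matrix.IsSymm, Matrix.transpose_neg, hD.1], ?_⟩
    rw [Matrix.det_neg]
    exact mul_ne_zero (pow_ne_zero _ (neg_ne_zero.2 one_ne_zero)) hD.2
  have h0 : cls (fromBlocks A 0 0 (-Matrix.diagonal a)) = 0 := by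
    rw [c2 _ _ A _ hA hD', c4 _ _ hD, ← hAx, add_neg_cancel]
  have hSN : SN (fromBlocks A 0 0 (-Matrix.diagonal a)) := by
    refine ⟨?_, ?_⟩
    · rw [Matrix.IsSymm, Matrix.fromBlocks_transpose, hA.1, hD'.1, Matrix.transpose_zero,
        Matrix.transpose_zero]
    · rw [Matrix.det_fromBlocks_zero₂₁]
      exact mul_ne_zero hA.2 hD'.2
  obtain ⟨r, hr, -⟩ := hW0 F h2 _ _ hSN h0
  rw [Fintype.card_sum, Fintype.card_fin, Fintype.card_fin] at hr
  exact ⟨r - n, by omega⟩

theorem pf_zero_of_sol (h2 : (2 : F) ≠ 0) (hPFI : T_PFI) {a b : F} (ha : a ≠ 0) (hb : b ≠ 0)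
    (h : Sol a b) : pf a b = 0 := ((hPFI F h2 a b ha hb).2).2 h

/-- the class depends only on the symbol -/
theorem pf_eq_of_hil (h2 : (2 : F) ≠ 0) (hNI : NI F) (hCLS : T_CLS) (hONE : T_ONE)
    (hPFI : T_PFI) {a b z : F} (ha : a ≠ 0) (hb : b ≠ 0) (hz : z ≠ 0)
    (h : hil a b = hil a z) : pf a b = pf a z := by
  obtain ⟨o1, o2, -, -⟩ := hONE F h2
  by_cases hs : IsSquare a
  · rw [pf_zero_of_sol h2 hPFI ha hb (sol_of_square b hs),
      pf_zero_of_sol h2 hPFI ha hz (sol_of_square z hs)]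
  · have h1 : hil a (b * z) = 1 := by
      rw [bimF F h2 hNI a b z ha hb hz, h]
      unfold Pool.Agent.H32.QC.hil
      split_ifs <;> norm_num
    have h3 : Sol a (b * z) := by
      by_contra h'
      unfold Pool.Agent.H32.QC.hil at h1
      rw [if_neg h'] at h1
      norm_num at h1
    obtain ⟨x, y, w, hne, he⟩ := h3
    have hy : y ≠ 0 := by
      intro hy
      rw [hy] at he
      by_cases hx : x = 0
      · rw [hx] at he
        have hw : w = 0 := by
          have : w ^ 2 = 0 := by rw [he]; ring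
          exact pow_eq_zero_iff (two_ne_zero) |>.1 this
        rcases hne with h | h | h
        · exact h hx
        · exact h hy
        · exact h hw
      · exact hs ⟨w / x, by
          field_simp
          rw [he]; ring⟩
    have e : on (-b) + on (a * b) = on (-(b ^ 2 * z)) + on ((-b) * (a * b) * (-(b ^ 2 * z))) := by
      refine on_binary h2 hCLS hONE (neg_ne_zero.2 hb) (mul_ne_zero ha hb)
        (neg_ne_zero.2 (mul_ne_zero (pow_ne_zero _ hb) hz)) (y := w / y) (z := x / y) ?_
      field_simp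
      linear_combination -he
    have e1 : on (-(b ^ 2 * z)) = on (-z) := by
      rw [show -(b ^ 2 * z) = (-z) * b ^ 2 by ring]
      exact o1 (-z) b (neg_ne_zero.2 hz) hb
    have e2 : on ((-b) * (a * b) * (-(b ^ 2 * z))) = on (a * z) := by
      rw [show (-b) * (a * b) * (-(b ^ 2 * z)) = (a * z) * (b ^ 2) ^ 2 by ring]
      exact o1 (a * z) (b ^ 2) (mul_ne_zero ha hz) (pow_ne_zero _ hb)
    rw [e1, e2, o2 b hb, o2 z hz] at e
    unfold pf
    calc on 1 - on a - on b + on (a * b) = (on 1 - on a) + (-on b + on (a * b)) := by abel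
      _ = _ := by rw [e]; abel

theorem pf_symm (a b : F) : pf a b = pf b a := by
  unfold pf
  rw [mul_comm a b]
  abel

theorem isSquare_neg_mul_sq {a b : F} (ha : a ≠ 0) (h : IsSquare (a * b)) :
    ∃ s : F, b = a * s ^ 2 := by
  obtain ⟨r, hr⟩ := h
  refine ⟨r / a, ?_⟩
  field_simp
  linear_combination hr

/-- representation by a pair -/
theorem exists_pf (h2 : (2 : F) ≠ 0) (hNI : NI F) (hn : 2 < nsq F) (hCLS : T_CLS)
    (hONE : T_ONE) (hW0 : T_W0) (hI2D : T_I2D) {x : WG F} (hx : I2 x) :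
    ∃ a b : F, a ≠ 0 ∧ b ≠ 0 ∧ x = pf a b := by
  obtain ⟨o1, o2, o3, o4⟩ := hONE F h2
  have h11 : pf (1 : F) 1 = 0 := by unfold pf; rw [mul_one]; abel
  obtain ⟨n, a, ha, hxa⟩ := o4 x
  obtain ⟨L, hL, hL4, hsum⟩ := on_reduce h2 hNI hn hCLS hONE n (List.ofFn a) (by simp)
    (by
      intro b hb
      rw [List.mem_ofFn] at hb
      obtain ⟨i, rfl⟩ := hb
      exact ha i)
  have hxL : x = (L.map on).sum := by
    rw [← hsum, List.map_ofFn, List.sum_ofFn, hxa]
    rfl
  have hcl : x = cls (Matrix.diagonal fun i : Fin L.length => L[i]) := by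
    rw [o3 (Fin L.length) (fun i => L[i]) (fun i => hL _ (List.getElem_mem _)), hxL]
    rw [← List.sum_ofFn]
    congr 1
    apply List.ext_getElem
    · simp
    · intro i h1 h2
      simp
  have hev : Even L.length := even_of_I2 h2 hCLS hW0 (a := fun i : Fin L.length => L[i])
    (fun i => hL _ (List.getElem_mem _)) (hcl ▸ hx)
  match L, hL, hL4, hxL, hev with
  | [], _, _, hxL, _ => exact ⟨1, 1, one_ne_zero, one_ne_zero, by rw [h11, hxL]; rfl⟩
  | [_], _, _, _, hev => exact absurd hev (by simp)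
  | [a, b], hL, _, hxL, _ =>
    have ha : a ≠ 0 := hL a (by simp)
    have hb : b ≠ 0 := hL b (by simp)
    have hc : x = cls (Matrix.diagonal ![a, b]) := by
      rw [o3 (Fin 2) ![a, b] (by intro i; fin_cases i <;> simpa), hxL]
      simp [Fin.sum_univ_two]
    have hSN : SN (Matrix.diagonal ![a, b]) := by
      refine ⟨Matrix.isSymm_diagonal _, ?_⟩
      rw [Matrix.det_diagonal]
      simpa [Fin.prod_univ_two] using ⟨ha, hb⟩
    have hd := (hI2D F h2 (Fin 2) (Matrix.diagonal ![a, b]) 1 hSN (by simp)).1 (hc ▸ hx)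
    rw [Matrix.det_diagonal] at hd
    simp only [Fin.prod_univ_two, Matrix.cons_val_zero, Matrix.cons_val_one, pow_one] at hd
    obtain ⟨s, hs⟩ := isSquare_neg_mul_sq (a := -a) (b := b) (neg_ne_zero.2 ha) (by
      convert hd using 1; simp)
    have hs0 : s ≠ 0 := by rintro rfl; exact hb (by rw [hs]; ring)
    refine ⟨1, 1, one_ne_zero, one_ne_zero, ?_⟩
    rw [h11, hxL]
    simp only [List.map_cons, List.map_nil, List.sum_cons, List.sum_nil, add_zero]
    rw [hs, o1 (-a) s (neg_ne_zero.2 ha) hs0, o2 a ha, add_neg_cancel]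
  | [_, _, _], _, _, _, hev =>
    exfalso
    simp only [List.length_cons, List.length_nil] at hev
    exact absurd hev (by decide)
  | [a, b, c, d], hL, _, hxL, _ =>
    have ha : a ≠ 0 := hL a (by simp)
    have hb : b ≠ 0 := hL b (by simp)
    have hc : c ≠ 0 := hL c (by simp)
    have hd : d ≠ 0 := hL d (by simp)
    have hv : ∀ i, (![a, b, c, d] : Fin 4 → F) i ≠ 0 := by
      intro i; fin_cases i
      · exact ha
      · exact hb
      · exact hc
      · exact hd
    obtain ⟨y, hy⟩ := uniF F h2 hNI hn 4 ![a, b, c, d] le_rfl hv 1 one_ne_zero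
    obtain ⟨K, hK, hKn, hs⟩ := on_rep h2 hCLS hONE 4 ![a, b, c, d] y 1 hv one_ne_zero hy
    have hs4 : ∑ i, on ((![a, b, c, d] : Fin 4 → F) i) = x := by
      rw [hxL]
      simp [Fin.sum_univ_four, add_assoc]
    rw [hs4] at hs
    match K, hK, hKn, hs with
    | [p, q, r], hK, _, hs =>
      have hp : p ≠ 0 := hK p (by simp)
      have hq : q ≠ 0 := hK q (by simp)
      have hr : r ≠ 0 := hK r (by simp)
      have hw : ∀ i, (![1, p, q, r] : Fin 4 → F) i ≠ 0 := by
        intro i; fin_cases i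
        · exact one_ne_zero
        · exact hp
        · exact hq
        · exact hr
      have hc : x = cls (Matrix.diagonal ![1, p, q, r]) := by
        rw [o3 (Fin 4) ![1, p, q, r] hw, hs]
        simp [Fin.sum_univ_four, add_assoc]
      have hSN : SN (Matrix.diagonal ![1, p, q, r]) := by
        refine ⟨Matrix.isSymm_diagonal _, ?_⟩
        rw [Matrix.det_diagonal]
        exact Finset.prod_ne_zero_iff.2 fun i _ => hw i
      have hd := (hI2D F h2 (Fin 4) (Matrix.diagonal ![1, p, q, r]) 2 hSN (by simp)).1 (hc ▸ hx)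
      rw [Matrix.det_diagonal, Fin.prod_univ_four] at hd
      obtain ⟨s, hs'⟩ := isSquare_neg_mul_sq (a := p * q) (b := r) (mul_ne_zero hp hq) (by
        convert hd using 1; simp)
      have hs0 : s ≠ 0 := by rintro rfl; exact hr (by rw [hs']; ring)
      refine ⟨-p, -q, neg_ne_zero.2 hp, neg_ne_zero.2 hq, ?_⟩
      rw [hs]
      simp only [List.map_cons, List.map_nil, List.sum_cons, List.sum_nil, add_zero]
      unfold pf
      rw [hs', o1 (p * q) s (mul_ne_zero hp hq) hs0, o2 p hp, o2 q hq,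
        show (-p) * (-q) = p * q by ring]
      abel
    | [], _, hKn, _ => exact absurd hKn (by simp)
    | [_], _, hKn, _ => exact absurd hKn (by simp)
    | [_, _], _, hKn, _ => exact absurd hKn (by simp)
    | _ :: _ :: _ :: _ :: _, _, hKn, _ => exact absurd hKn (by simp)
  | _ :: _ :: _ :: _ :: _ :: _, _, h, _, _ => exact absurd h (by simp)

end

theorem pf_IV (hPFI : T_PFI) (hW0 : T_W0) (hCLS : T_CLS) (hONE : T_ONE) (hI2A : T_I2A)
    (hI2D : T_I2D) : T_IV := by
  intro F _ h2 hNI hn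
  have hex : ∀ x : WG F, I2 x → ∃ a b : F, a ≠ 0 ∧ b ≠ 0 ∧ x = pf a b :=
    fun x hx => exists_pf h2 hNI hn hCLS hONE hW0 hI2D hx
  have huniq : ∀ x y : WG F, I2 x → I2 y → x ≠ 0 → y ≠ 0 → x = y := by
    intro x y hx hy hx0 hy0
    obtain ⟨a, b, ha, hb, rfl⟩ := hex x hx
    obtain ⟨c, d, hc, hd, rfl⟩ := hex y hy
    have ns : ∀ {a b : F}, a ≠ 0 → b ≠ 0 → pf a b ≠ 0 → hil a b = -1 ∧ ¬ IsSquare a := by
      intro a b ha hb h
      have h1 : ¬ Sol a b := fun h' => h (pf_zero_of_sol h2 hPFI ha hb h')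
      refine ⟨?_, fun h' => h1 (sol_of_square b h')⟩
      unfold Pool.Agent.H32.QC.hil
      rw [if_neg h1]
    obtain ⟨h3, h4⟩ := ns ha hb hx0
    obtain ⟨h5, h6⟩ := ns hc hd hy0
    obtain ⟨z, hz, h7, h8⟩ := ndgF F h2 hNI a c ha hc h4 h6
    rw [pf_eq_of_hil h2 hNI hCLS hONE hPFI ha hb hz (h3.trans h7.symm), pf_symm a z,
      pf_eq_of_hil h2 hNI hCLS hONE hPFI hz ha hc (by rw [hil_symm, h7, hil_symm, h8]),
      pf_symm z c, pf_eq_of_hil h2 hNI hCLS hONE hPFI hc hz hd (h8.trans h5.symm)]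
  refine ⟨?_, huniq, ?_, hex⟩
  · intro x hx
    by_cases hx0 : x = 0
    · rw [hx0, add_zero]
    · have h1 := huniq x (-x) hx ((hI2A F h2).2.2 x hx) hx0 (neg_ne_zero.2 hx0)
      exact eq_neg_iff_add_eq_zero.1 h1
  · have hns : ∃ a : Fˣ, a ∉ (powMonoidHom 2 : Fˣ →* Fˣ).range := by
      by_contra hcon
      push Not at hcon
      have : (powMonoidHom 2 : Fˣ →* Fˣ).range = ⊤ := by
        ext x; simpa using hcon x
      unfold Pool.Agent.H32.QC.nsq at hn
      rw [this, Subgroup.index_top] at hn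
      omega
    obtain ⟨a, ha⟩ := hns
    have ha' : ¬ IsSquare (a : F) := by
      rintro ⟨s, hs⟩
      have hs0 : s ≠ 0 := by
        rintro rfl
        exact a.ne_zero (by rw [hs]; ring)
      apply ha
      refine ⟨Units.mk0 s hs0, Units.ext ?_⟩
      simp [pow_two, hs]
    obtain ⟨N, hN, hNs⟩ := hNI a a.ne_zero ha'
    have hNt : N ≠ ⊤ := by
      rintro rfl
      rw [Subgroup.index_top] at hN
      omega
    obtain ⟨b, hb⟩ : ∃ b : Fˣ, b ∉ N := by
      by_contra hcon
      push Not at hcon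
      exact hNt (by ext x; simpa using hcon x)
    refine ⟨pf (a : F) b, (hPFI F h2 a b a.ne_zero b.ne_zero).1, ?_⟩
    intro h
    exact hb ((hNs b).2 (((hPFI F h2 a b a.ne_zero b.ne_zero).2).1 h))

end Pool.Agent.H81.WT
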