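import Pool.Agent.H63.WT.TD

/-!
# The combinatorial statement on signs of real roots
-/

set_option autoImplicit false

open Polynomial Matrix Pool.Agent.H63.WT

namespace Pool.Agent.H81.WT

/-- alternating sums -/
theorem alt_sum (U : Finset ℝ) :
    ∑ e ∈ U, (if Even ((U.filter fun x => e < x).card) then (1 : ℤ) else -1) =
      if Odd U.card then 1 else 0 := by
  classical
  induction U using Finset.induction_on_min with
  | empty => simp
  | insert a s hlt ih =>
    have ha : a ∉ s := fun h => lt_irrefl _ (hlt a h)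
    rw [Finset.sum_insert ha, Finset.card_insert_of_notMem ha]
    have e1 : ((insert a s).filter fun x => a < x) = s := by
      ext x
      simp only [Finset.mem_filter, Finset.mem_insert]
      constructor
      · rintro ⟨rfl | h, h2⟩
        · exact absurd h2 (lt_irrefl _)
        · exact h
      · intro h
        exact ⟨Or.inr h, hlt x h⟩
    have e2 : ∀ e ∈ s, ((insert a s).filter fun x => e < x) = s.filter fun x => e < x := by
      intro e he
      ext x
      simp only [Finset.mem_filter, Finset.mem_insert]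
      constructor
      · rintro ⟨rfl | h, h2⟩
        · exact absurd (hlt e he) (not_lt.2 h2.le)
        · exact ⟨h, h2⟩
      · rintro ⟨h, h2⟩
        exact ⟨Or.inr h, h2⟩
    rw [e1, Finset.sum_congr rfl fun e he => by rw [e2 e he], ih]
    rcases Nat.even_or_odd s.card with h | h
    · rw [if_pos h, if_neg (by rw [Nat.not_odd_iff_even]; exact h),
        if_pos (by rw [Nat.odd_add_one, Nat.not_odd_iff_even]; exact h)]
      rfl
    · rw [if_neg (by rw [Nat.not_even_iff_odd]; exact h), if_pos h,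
        if_neg (by rw [Nat.odd_add_one, not_not]; exact h)]
      rfl

/-- parity of sums of signs -/
theorem par_sum (A : Finset ℝ) (sg : ℝ → ℤ) (h : ∀ e ∈ A, sg e = 1 ∨ sg e = -1) :
    ∃ m : ℤ, ∑ e ∈ A, sg e = A.card + 2 * m := by
  classical
  induction A using Finset.induction_on with
  | empty => exact ⟨0, by simp⟩
  | insert a s ha ih =>
    obtain ⟨m, hm⟩ := ih fun e he => h e (Finset.mem_insert_of_mem he)
    rw [Finset.sum_insert ha, Finset.card_insert_of_notMem ha, hm]
    rcases h a (Finset.mem_insert_self _ _) with h1 | h1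
    · exact ⟨m, by rw [h1]; push_cast; ring⟩
    · exact ⟨m - 1, by rw [h1]; push_cast; ring⟩

/-- a number just below `e` -/
theorem exists_below (R : Finset ℝ) (e : ℝ) : ∃ t : ℝ, t < e ∧ ∀ x ∈ R, x < e → x < t := by
  classical
  by_cases h : (R.filter fun x => x < e).Nonempty
  · obtain ⟨m, hm, hmax⟩ := Finset.exists_max_image _ id h
    rw [Finset.mem_filter] at hm
    refine ⟨(m + e) / 2, by linarith [hm.2], fun x hx hxe => ?_⟩
    have := hmax x (Finset.mem_filter.2 ⟨hx, hxe⟩)
    simp only [id] at this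
    linarith [hm.2]
  · refine ⟨e - 1, by linarith, fun x hx hxe => ?_⟩
    exact absurd ⟨x, Finset.mem_filter.2 ⟨hx, hxe⟩⟩ h

section

variable (R N1 N2 : Finset ℝ) (sg : ℝ → ℤ)

open Classical in
/-- the sum of the signs below `t` -/
noncomputable def fb (A : Finset ℝ) (sg : ℝ → ℤ) (t : ℝ) : ℤ := ∑ e ∈ A.filter (· < t), sg e

open Classical in
/-- the number of elements below `t` -/
noncomputable def cb (A : Finset ℝ) (t : ℝ) : ℕ := (A.filter (· < t)).card

theorem filter_eq_of_cb {A : Finset ℝ} {t t' : ℝ} (h : cb A t = cb A t') (x : ℝ) (hx : x ∈ A) :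
    x < t ↔ x < t' := by
  classical
  have key : ∀ t t' : ℝ, t ≤ t' → cb A t = cb A t' → ∀ x ∈ A, (x < t ↔ x < t') := by
    intro t t' htt h x hx
    have hs : A.filter (· < t) ⊆ A.filter (· < t') := by
      intro y hy
      rw [Finset.mem_filter] at hy ⊢
      exact ⟨hy.1, hy.2.trans_le htt⟩
    have he := Finset.eq_of_subset_of_card_le hs (le_of_eq (by unfold cb at h; exact h.symm))
    have := Finset.ext_iff.1 he x
    simp only [Finset.mem_filter, hx, true_and] at this
    exact this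
  rcases le_total t t' with h1 | h1
  · exact key t t' h1 h x hx
  · exact (key t' t h1 h.symm x hx).symm

/-- one step down -/
theorem step_down {A : Finset ℝ} (hA : A ⊆ R) {t : ℝ} {n : ℕ} (h : cb A t = n + 1) :
    ∃ e ∈ A, e < t ∧ ∃ t' : ℝ, t' ∉ R ∧ cb A t' = n ∧ ∀ x ∈ A, (x < t ↔ (x = e ∨ x < t')) ∧
      ¬ e < t' := by
  classical
  have hne : (A.filter (· < t)).Nonempty := by
    rw [← Finset.card_pos]
    unfold cb at h
    omega
  obtain ⟨e, he, hmax⟩ := Finset.exists_max_image _ id hne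
  rw [Finset.mem_filter] at he
  obtain ⟨u, hu, hu'⟩ := exists_below R e
  obtain ⟨t', ht'1, ht'2⟩ := exists_between hu
  have hR : t' ∉ R := fun hin => absurd (hu' t' hin ht'2) (not_lt.2 ht'1.le)
  have hx : ∀ x ∈ A, (x < t ↔ (x = e ∨ x < t')) ∧ ¬ e < t' := by
    intro x hxA
    refine ⟨⟨fun hxt => ?_, ?_⟩, not_lt.2 ht'2.le⟩
    · have h1 := hmax x (Finset.mem_filter.2 ⟨hxA, hxt⟩)
      simp only [id] at h1
      rcases h1.eq_or_lt with h2 | h2
      · exact Or.inl h2
      · exact Or.inr ((hu' x (hA hxA) h2).trans ht'1)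
    · rintro (rfl | h2)
      · exact he.2
      · exact (h2.trans ht'2).trans he.2
  refine ⟨e, he.1, he.2, t', hR, ?_, hx⟩
  have e1 : A.filter (· < t) = insert e (A.filter (· < t')) := by
    ext x
    simp only [Finset.mem_filter, Finset.mem_insert]
    constructor
    · rintro ⟨h1, h2⟩
      rcases (hx x h1).1.1 h2 with h3 | h3
      · exact Or.inl h3
      · exact Or.inr ⟨h1, h3⟩
    · rintro (rfl | ⟨h1, h2⟩)
      · exact ⟨he.1, he.2⟩
      · exact ⟨h1, (hx x h1).1.2 (Or.inr h2)⟩
  have e2 : e ∉ A.filter (· < t') := by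
    rw [Finset.mem_filter]
    exact fun h1 => (hx e he.1).2 h1.2
  unfold cb at h ⊢
  rw [e1, Finset.card_insert_of_notMem e2] at h
  omega

/-- all numbers of elements below occur -/
theorem exists_cb {A : Finset ℝ} (hA : A ⊆ R) {n : ℕ} (hn : n ≤ A.card) :
    ∃ t : ℝ, t ∉ R ∧ cb A t = n := by
  classical
  obtain ⟨k, hk⟩ := Nat.exists_eq_add_of_le hn
  induction k generalizing n with
  | zero =>
    obtain ⟨M, hM⟩ := R.exists_le
    refine ⟨M + 1, fun h => by linarith [hM _ h], ?_⟩
    unfold cb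
    rw [Finset.filter_true_of_mem fun x hx => by linarith [hM x (hA hx)]]
    omega
  | succ k ih =>
    obtain ⟨t, -, ht⟩ := ih (n := n + 1) (by omega) (by omega)
    obtain ⟨e, -, -, t', ht', hc, -⟩ := step_down R hA ht
    exact ⟨t', ht', hc⟩

/-- the sum of the signs one step down -/
theorem fb_step {A B : Finset ℝ} (hBA : B ⊆ A) {t t' e : ℝ}
    (h : ∀ x ∈ A, (x < t ↔ (x = e ∨ x < t')) ∧ ¬ e < t') :
    fb B sg t = fb B sg t' + if e ∈ B then sg e else 0 := by
  classical
  unfold fb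
  split_ifs with he
  · have e1 : B.filter (· < t) = insert e (B.filter (· < t')) := by
      ext x
      simp only [Finset.mem_filter, Finset.mem_insert]
      constructor
      · rintro ⟨h1, h2⟩
        rcases (h x (hBA h1)).1.1 h2 with h3 | h3
        · exact Or.inl h3
        · exact Or.inr ⟨h1, h3⟩
      · rintro (rfl | ⟨h1, h2⟩)
        · exact ⟨he, (h x (hBA he)).1.2 (Or.inl rfl)⟩
        · exact ⟨h1, (h x (hBA h1)).1.2 (Or.inr h2)⟩
    have e2 : e ∉ B.filter (· < t') := by
      rw [Finset.mem_filter]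
      exact fun h1 => (h e (hBA he)).2 h1.2
    rw [e1, Finset.sum_insert e2, add_comm]
  · have e1 : B.filter (· < t) = B.filter (· < t') := by
      ext x
      simp only [Finset.mem_filter]
      constructor
      · rintro ⟨h1, h2⟩
        rcases (h x (hBA h1)).1.1 h2 with h3 | h3
        · exact absurd (h3 ▸ h1) he
        · exact ⟨h1, h3⟩
      · rintro ⟨h1, h2⟩
        exact ⟨h1, (h x (hBA h1)).1.2 (Or.inr h2)⟩
    rw [e1, add_zero]

theorem fb_congr {A B : Finset ℝ} (hBA : B ⊆ A) {t t' : ℝ} (h : cb A t = cb A t') :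
    fb B sg t = fb B sg t' := by
  classical
  unfold fb
  congr 1
  ext x
  simp only [Finset.mem_filter]
  constructor
  · rintro ⟨h1, h2⟩
    exact ⟨h1, (filter_eq_of_cb h x (hBA h1)).1 h2⟩
  · rintro ⟨h1, h2⟩
    exact ⟨h1, (filter_eq_of_cb h x (hBA h1)).2 h2⟩

theorem fb_zero {A B : Finset ℝ} (hBA : B ⊆ A) {t : ℝ} (h : cb A t = 0) : fb B sg t = 0 := by
  classical
  unfold fb
  unfold cb at h
  rw [Finset.card_eq_zero] at h
  have : B.filter (· < t) = ∅ := by
    rw [Finset.eq_empty_iff_forall_notMem] at h ⊢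
    intro x hx
    rw [Finset.mem_filter] at hx
    exact h x (Finset.mem_filter.2 ⟨hBA hx.1, hx.2⟩)
  rw [this, Finset.sum_empty]

theorem fb_top {A B : Finset ℝ} (hBA : B ⊆ A) {t : ℝ} (h : cb A t = A.card) :
    fb B sg t = ∑ e ∈ B, sg e := by
  classical
  unfold fb
  unfold cb at h
  have h1 : A.filter (· < t) = A :=
    Finset.eq_of_subset_of_card_le (Finset.filter_subset _ _) (le_of_eq h.symm)
  have : B.filter (· < t) = B := by
    apply Finset.filter_true_of_mem
    intro x hx
    have := hBA hx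
    rw [← h1, Finset.mem_filter] at this
    exact this.2
  rw [this]

/-- the sum in the statement -/
theorem sig_eq (hR : Odd R.card) {N : Finset ℝ} (hN : N ⊆ R)
    (hsg : ∀ e ∈ R, sg e = if Even ((R.filter fun x => e < x).card) then 1 else -1)
    {t : ℝ} (ht : t ∉ R) :
    ∃ τ : ℤ, (τ = 1 ∨ τ = -1) ∧
      ∑ e ∈ R, (if e ∈ N then -1 else 1) * sg e * (if t < e then 1 else -1) =
        τ - 2 * ∑ e ∈ N, sg e + 4 * fb N sg t := by
  classical
  have hU : ∑ e ∈ R.filter (fun e => t < e), sg e =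
      if Odd (R.filter (fun e => t < e)).card then 1 else 0 := by
    rw [← alt_sum]
    refine Finset.sum_congr rfl fun e he => ?_
    rw [Finset.mem_filter] at he
    rw [hsg e he.1]
    have : (R.filter fun x => e < x) = ((R.filter fun e => t < e).filter fun x => e < x) := by
      ext x
      simp only [Finset.mem_filter]
      constructor
      · rintro ⟨h1, h2⟩
        exact ⟨⟨h1, he.2.trans h2⟩, h2⟩
      · rintro ⟨⟨h1, -⟩, h2⟩
        exact ⟨h1, h2⟩
    rw [this]
  have hRs : ∑ e ∈ R, sg e = 1 := by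
    rw [Finset.sum_congr rfl hsg, alt_sum, if_pos hR]
  have h1 : ∑ e ∈ R, sg e * (if t < e then 1 else -1) =
      2 * ∑ e ∈ R.filter (fun e => t < e), sg e - ∑ e ∈ R, sg e := by
    rw [Finset.sum_filter, Finset.mul_sum, ← Finset.sum_sub_distrib]
    refine Finset.sum_congr rfl fun e _ => ?_
    split_ifs <;> ring
  have h2 : ∑ e ∈ R, (if e ∈ N then -1 else 1) * sg e * (if t < e then 1 else -1) =
      ∑ e ∈ R, sg e * (if t < e then 1 else -1) -
        2 * ∑ e ∈ N, sg e * (if t < e then 1 else -1) := by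
    rw [← Finset.inter_eq_right.2 hN, ← Finset.sum_ite_mem, Finset.mul_sum,
      ← Finset.sum_sub_distrib]
    refine Finset.sum_congr rfl fun e _ => ?_
    simp only [Finset.inter_eq_right.2 hN]
    split_ifs <;> ring
  have h3 : ∑ e ∈ N, sg e * (if t < e then 1 else -1) = ∑ e ∈ N, sg e - 2 * fb N sg t := by
    unfold fb
    rw [Finset.sum_filter, Finset.mul_sum, ← Finset.sum_sub_distrib]
    refine Finset.sum_congr rfl fun e he => ?_
    have hne : e ≠ t := fun h => ht (h ▸ hN he)
    rcases lt_or_gt_of_ne hne with h | h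
    · rw [if_neg (not_lt.2 h.le), if_pos h]; ring
    · rw [if_pos h, if_neg (not_lt.2 h.le)]; ring
  rw [h2, h1, h3, hU, hRs]
  by_cases ho : Odd (R.filter (fun e => t < e)).card
  · exact ⟨1, Or.inl rfl, by rw [if_pos ho]; ring⟩
  · exact ⟨-1, Or.inr rfl, by rw [if_neg ho]; ring⟩

theorem four_dvd (a : ℤ) : (4 : ℤ) ∣ 2 * a ↔ Even a := by
  rw [even_iff_two_dvd]
  constructor <;> intro h <;> omega

/-- the parity of the sum of the signs -/
theorem even_fb {A : Finset ℝ} (h : ∀ e ∈ A, sg e = 1 ∨ sg e = -1) (t : ℝ) :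
    Even (fb A sg t) ↔ Even (A.filter fun e => e < t).card := by
  classical
  obtain ⟨m, hm⟩ := par_sum (A.filter fun e => e < t) sg
    fun e he => h e (Finset.mem_filter.1 he).1
  have e1 : fb A sg t = ((A.filter fun e => e < t).card : ℤ) + 2 * m := by
    rw [← hm]
    unfold fb
    rfl
  rw [e1, even_iff_two_dvd, even_iff_two_dvd]
  constructor <;> intro h <;> omega

/-- **the combinatorial statement** -/
theorem pf_RCB : T_RCB := by
  classical
  intro R N1 N2 sg hR _ hN1 hN2 hdis he1 he2 hsg hσ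
  have hN : N1 ∪ N2 ⊆ R := Finset.union_subset hN1 hN2
  have hs1 : ∀ e ∈ R, sg e = 1 ∨ sg e = -1 := by
    intro e he
    rw [hsg e he]
    split_ifs
    · exact Or.inl rfl
    · exact Or.inr rfl
  have hsN1 : ∀ e ∈ N1, sg e = 1 ∨ sg e = -1 := fun e he => hs1 e (hN1 he)
  have hsN : ∀ e ∈ N1 ∪ N2, sg e = 1 ∨ sg e = -1 := fun e he => hs1 e (hN he)
  have hSub1 : N1 ⊆ N1 ∪ N2 := Finset.subset_union_left
  obtain ⟨S1, hS1⟩ : ∃ m : ℤ, ∑ e ∈ N1, sg e = 2 * m := by
    obtain ⟨m, hm⟩ := par_sum N1 sg hsN1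
    obtain ⟨k, hk⟩ := he1
    exact ⟨k + m, by rw [hm, hk]; push_cast; ring⟩
  obtain ⟨S, hS⟩ : ∃ m : ℤ, ∑ e ∈ N1 ∪ N2, sg e = 2 * m := by
    obtain ⟨m, hm⟩ := par_sum (N1 ∪ N2) sg hsN
    obtain ⟨k, hk⟩ := he1
    obtain ⟨l, hl⟩ := he2
    refine ⟨k + l + m, ?_⟩
    rw [hm, Finset.card_union_of_disjoint hdis, hk, hl]
    push_cast
    ring
  -- the values
  have hval : ∀ t : ℝ, t ∉ R → ∃ τ : ℤ, (τ = 1 ∨ τ = -1) ∧
      ∑ e ∈ R, (if e ∈ N1 ∪ N2 then -1 else 1) * sg e * (if t < e then 1 else -1) =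
        τ + 4 * (fb (N1 ∪ N2) sg t - S) := by
    intro t ht
    obtain ⟨τ, hτ, h⟩ := sig_eq R sg hR hN hsg ht
    refine ⟨τ, hτ, ?_⟩
    rw [h, hS]
    ring
  have hb : ∀ t : ℝ, t ∉ R → -1 ≤ fb (N1 ∪ N2) sg t - S ∧ fb (N1 ∪ N2) sg t - S ≤ 1 := by
    intro t ht
    obtain ⟨τ, hτ, h⟩ := hval t ht
    have h1 := hσ t ht
    rw [h, abs_le] at h1
    rcases hτ with rfl | rfl <;> constructor <;> omega
  by_contra hcon
  have Hc : ∀ t : ℝ, t ∉ R → fb (N1 ∪ N2) sg t - S = 0 →
      ¬ (Even (fb N1 sg t) ↔ Even S1) := by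
    intro t ht h0 hiff
    apply hcon
    refine ⟨t, ht, ?_, ?_, ?_⟩
    · obtain ⟨τ, hτ, h⟩ := hval t ht
      rw [h, h0]
      rcases hτ with rfl | rfl <;> norm_num
    · rw [hS1, four_dvd, ← even_fb sg hsN1 t]
      exact hiff
    · rw [hS, four_dvd, ← even_fb sg hsN t]
      have : fb (N1 ∪ N2) sg t = S := by omega
      rw [this]
  -- the induction
  have main : ∀ (n₀ : ℕ) (c : ℤ), ¬ (Even c ↔ Even S1) →
      (∀ t : ℝ, t ∉ R → cb (N1 ∪ N2) t = n₀ →
        fb (N1 ∪ N2) sg t - S = 0 ∧ fb N1 sg t = c) →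
      ∀ k : ℕ, ∀ t : ℝ, t ∉ R → cb (N1 ∪ N2) t = n₀ + k →
        (fb (N1 ∪ N2) sg t - S = 0 → fb N1 sg t = c) ∧
        (fb (N1 ∪ N2) sg t - S ≠ 0 → fb N1 sg t = c ∨
          fb N1 sg t = c + (fb (N1 ∪ N2) sg t - S)) := by
    intro n₀ c hc hstart k
    induction k with
    | zero =>
      intro t ht hn
      have := hstart t ht hn
      exact ⟨fun _ => this.2, fun h => absurd this.1 h⟩
    | succ k ih =>
      intro t ht hn
      obtain ⟨e, heN, het, t', ht', hn', hx⟩ := step_down R hN (n := n₀ + k) (by rw [hn]; rfl)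
      have i1 := ih t' ht' hn'
      have f1 := fb_step sg (B := N1 ∪ N2) (Finset.Subset.refl _) hx
      have f2 := fb_step sg (B := N1) hSub1 hx
      rw [if_pos heN] at f1
      have b1 := hb t ht
      have b2 := hb t' ht'
      have hse := hsN e heN
      have hp := Hc t ht
      generalize fb (N1 ∪ N2) sg t = F at *
      generalize fb (N1 ∪ N2) sg t' = F' at *
      generalize fb N1 sg t = G at *
      generalize fb N1 sg t' = G' at *
      rw [Int.even_iff, Int.even_iff] at hc hp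
      split_ifs at f2
      · rcases hse with hse | hse <;> rw [hse] at f1 f2 <;> constructor <;> intro h0 <;>
          by_cases h1 : F' - S = 0
        all_goals omega
      · rcases hse with hse | hse <;> rw [hse] at f1 <;> constructor <;> intro h0 <;>
          by_cases h1 : F' - S = 0
        all_goals omega
  -- the start and the end
  obtain ⟨t0, ht0, hn0⟩ := exists_cb R hN (n := 0) (Nat.zero_le _)
  have hSb := hb t0 ht0
  rw [fb_zero sg (Finset.Subset.refl _) hn0] at hSb
  obtain ⟨t1, ht1, hn1⟩ := exists_cb R hN (n := (N1 ∪ N2).card) le_rfl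
  have ft1 := fb_top sg (Finset.Subset.refl _) hn1
  have ft2 := fb_top sg hSub1 hn1
  rw [hS] at ft1
  rw [hS1] at ft2
  by_cases hS0 : S = 0
  · have hc0 : ¬ (Even (0 : ℤ) ↔ Even S1) := by
      have := Hc t0 ht0 (by rw [fb_zero sg (Finset.Subset.refl _) hn0, hS0]; rfl)
      rw [fb_zero sg hSub1 hn0] at this
      exact this
    have := main 0 0 hc0 (fun t ht hn => ⟨by
      rw [fb_zero sg (Finset.Subset.refl _) hn, hS0]; rfl, fb_zero sg hSub1 hn⟩)
      (N1 ∪ N2).card t1 ht1 (by rw [hn1, zero_add])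
    have h1 := this.1 (by rw [ft1, hS0]; rfl)
    rw [ft2] at h1
    rw [Int.even_iff, Int.even_iff] at hc0
    omega
  · have hcard : 1 ≤ (N1 ∪ N2).card := by
      rw [Nat.one_le_iff_ne_zero]
      intro h
      rw [Finset.card_eq_zero] at h
      rw [h, Finset.sum_empty] at hS
      omega
    obtain ⟨t2, ht2, hn2⟩ := exists_cb R hN (n := 1) hcard
    obtain ⟨e, heN, het, t', ht', hn', hx⟩ := step_down R hN (n := 0) (by rw [hn2])
    have f1 := fb_step sg (B := N1 ∪ N2) (Finset.Subset.refl _) hx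
    have f2 := fb_step sg (B := N1) hSub1 hx
    rw [if_pos heN, fb_zero sg (Finset.Subset.refl _) hn'] at f1
    rw [fb_zero sg hSub1 hn'] at f2
    have b1 := hb t2 ht2
    have hse := hsN e heN
    have hz : fb (N1 ∪ N2) sg t2 - S = 0 := by
      rcases hse with hse | hse <;> rw [hse] at f1 <;> omega
    have hp := Hc t2 ht2 hz
    have := main 1 (fb N1 sg t2) hp (fun t ht hn => ⟨by
      rw [fb_congr sg (Finset.Subset.refl _) (hn.trans hn2.symm), hz],
      fb_congr sg hSub1 (hn.trans hn2.symm)⟩)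
      ((N1 ∪ N2).card - 1) t1 ht1 (by rw [hn1]; omega)
    have h1 := this.2 (by rw [ft1]; omega)
    rw [ft1, ft2] at h1
    generalize fb N1 sg t2 = G at *
    generalize fb (N1 ∪ N2) sg t2 = F at *
    rw [Int.even_iff, Int.even_iff] at hp
    split_ifs at f2
    · rcases hse with hse | hse <;> rw [hse] at f1 f2 <;> omega
    · rcases hse with hse | hse <;> rw [hse] at f1 <;> omega

end

end Pool.Agent.H81.WT
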